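import Pool.Agent.U403.Thick.Unif

/-! # Thick points: the partition function and its freezing -/

set_option autoImplicit false

open Filter Topology MeasureTheory Set
open Pool.Agent.R320.JL
open SP (RHs)
open Pool.Agent.U403.Max

namespace Pool.Agent.U403.Thick

noncomputable section

/-- the free energy -/
def fe (l : ℝ) : ℝ := if |l| ≤ 2 * Real.pi then 1 + l ^ 2 / (4 * Real.pi ^ 2) else |l| / Real.pi

lemma fe_neg (l : ℝ) : fe (-l) = fe l := by unfold fe; rw [abs_neg, neg_sq]

lemma fe_one (l : ℝ) : 1 ≤ fe l := by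
  have hpi := Real.pi_pos
  unfold fe
  split_ifs with h
  · have : 0 ≤ l ^ 2 / (4 * Real.pi ^ 2) := by positivity
    linarith
  · rw [le_div_iff₀ hpi]
    push Not at h
    linarith

lemma fe_ge (l : ℝ) (hl : 0 ≤ l) : l / Real.pi ≤ fe l := by
  have hpi := Real.pi_pos
  unfold fe
  rw [abs_of_nonneg hl]
  split_ifs with h
  · have : 0 ≤ (l / (2 * Real.pi) - 1) ^ 2 := sq_nonneg _
    have h2 : (l / (2 * Real.pi) - 1) ^ 2 = 1 + l ^ 2 / (4 * Real.pi ^ 2) - l / Real.pi := by
      field_simp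
      ring
    linarith
  · exact le_refl _

lemma fe_up (l e α : ℝ) (hl : 0 ≤ l) (he : 0 ≤ e) (hα : 0 ≤ α) (hα1 : α ≤ 1 / Real.pi + e) :
    l * α + max (1 - Real.pi ^ 2 * α ^ 2) 0 ≤ fe l + l * e := by
  have hpi := Real.pi_pos
  have hle : 0 ≤ l * e := mul_nonneg hl he
  rcases le_total (1 - Real.pi ^ 2 * α ^ 2) 0 with h | h
  · rw [max_eq_right h, add_zero]
    have h1 := fe_ge l hl
    have h2 : l * α ≤ l * (1 / Real.pi + e) := mul_le_mul_of_nonneg_left hα1 hl
    have h3 : l * (1 / Real.pi + e) = l / Real.pi + l * e := by ring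
    linarith
  · rw [max_eq_left h]
    have hp1 : Real.pi * α ≤ 1 := by
      by_contra hc
      push Not at hc
      nlinarith
    have hp0 : 0 ≤ Real.pi * α := by positivity
    unfold fe
    rw [abs_of_nonneg hl]
    split_ifs with h2
    · have : 0 ≤ (Real.pi * α - l / (2 * Real.pi)) ^ 2 := sq_nonneg _
      have h3 : (Real.pi * α - l / (2 * Real.pi)) ^ 2 = Real.pi ^ 2 * α ^ 2 - l * α + l ^ 2 / (4 * Real.pi ^ 2) := by
        field_simp
        ring
      linarith
    · push Not at h2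
      have h3 : 2 ≤ l / Real.pi := by
        rw [le_div_iff₀ hpi]
        linarith
      have h4 : l * α = (l / Real.pi) * (Real.pi * α) := by
        field_simp
      have h5 : Real.pi ^ 2 * α ^ 2 = (Real.pi * α) ^ 2 := by ring
      rw [h4, h5]
      nlinarith [mul_nonneg (by linarith : 0 ≤ l / Real.pi - 2) (by linarith : 0 ≤ 1 - Real.pi * α),
        sq_nonneg (1 - Real.pi * α)]

lemma fe_low (l e : ℝ) (hl : 0 ≤ l) (he : 0 < e) (he1 : e ≤ 1 / 10) : ∃ α : ℝ, 0 ≤ α ∧ α ≤ 1 / Real.pi - e ∧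
    fe l - l * e ≤ l * α + (1 - Real.pi ^ 2 * α ^ 2) := by
  have hpi := Real.pi_pos
  have hpi3 := Real.pi_gt_three
  have hpi4 := Real.pi_lt_four
  have hle : 0 ≤ l * e := mul_nonneg hl he.le
  have hpe : Real.pi * e ≤ 1 := by nlinarith
  rcases le_total (l / (2 * Real.pi ^ 2)) (1 / Real.pi - e) with h | h
  · refine ⟨l / (2 * Real.pi ^ 2), by positivity, h, ?_⟩
    have h1 : l ≤ 2 * Real.pi := by
      have h2 : l / (2 * Real.pi ^ 2) ≤ 1 / Real.pi := by linarith
      rw [div_le_div_iff₀ (by positivity) hpi] at h2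
      have h3 : l * Real.pi ≤ (2 * Real.pi) * Real.pi := by nlinarith
      exact le_of_mul_le_mul_right h3 hpi
    unfold fe
    rw [abs_of_nonneg hl, if_pos h1]
    have h4 : l * (l / (2 * Real.pi ^ 2)) + (1 - Real.pi ^ 2 * (l / (2 * Real.pi ^ 2)) ^ 2) =
        1 + l ^ 2 / (4 * Real.pi ^ 2) := by
      field_simp
      ring
    linarith
  · refine ⟨1 / Real.pi - e, ?_, le_refl _, ?_⟩
    · rw [sub_nonneg, le_div_iff₀ hpi]
      linarith
    have h4 : l * (1 / Real.pi - e) + (1 - Real.pi ^ 2 * (1 / Real.pi - e) ^ 2) =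
        l / Real.pi - l * e + 2 * (Real.pi * e) - (Real.pi * e) ^ 2 := by
      field_simp
      ring
    rw [h4]
    have hpe0 : 0 ≤ Real.pi * e := by positivity
    unfold fe
    rw [abs_of_nonneg hl]
    split_ifs with h2
    · have h5 : 1 + l ^ 2 / (4 * Real.pi ^ 2) - l / Real.pi = (1 - l / (2 * Real.pi)) ^ 2 := by
        field_simp
        ring
      have h6 : 0 ≤ 1 - l / (2 * Real.pi) := by
        rw [sub_nonneg, div_le_one (by positivity)]
        exact h2
      have h7 : 1 - l / (2 * Real.pi) ≤ Real.pi * e := by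
        have h8 : Real.pi * (1 / Real.pi - e) ≤ Real.pi * (l / (2 * Real.pi ^ 2)) := by gcongr
        have h9 : Real.pi * (1 / Real.pi - e) = 1 - Real.pi * e := by field_simp
        have h10 : Real.pi * (l / (2 * Real.pi ^ 2)) = l / (2 * Real.pi) := by field_simp
        rw [h9, h10] at h8
        linarith
      have h11 : (1 - l / (2 * Real.pi)) ^ 2 ≤ (Real.pi * e) ^ 2 := pow_le_pow_left₀ h6 h7 2
      nlinarith
    · nlinarith

/-- the deterministic lemma: from the numbers of the thick points to the partition function, upper bound -/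
lemma part_up (r : ℕ) (hq : 0 < Real.log r) (x : ℕ → ℝ) (e l : ℝ) (he : 0 < e) (he1 : e ≤ 1 / 10) (hl : 0 ≤ l)
    (H : ∀ α : ℝ, 0 ≤ α → α ≤ 1 / Real.pi - e →
      ((((Finset.Icc 1 r).filter fun b : ℕ => α * Real.log r ≤ x b).card : ℕ) : ℝ) ≤
        Real.exp ((1 - Real.pi ^ 2 * α ^ 2 + e) * Real.log r))
    (Hm : ∀ b : ℕ, 1 ≤ b → b ≤ r → x b ≤ (1 / Real.pi + e) * Real.log r)
    (hr : 1 / e + 3 ≤ Real.exp (e * Real.log r)) :
    ∑ b ∈ Finset.Icc 1 r, Real.exp (l * x b) ≤ Real.exp ((fe l + (2 * l * e + 9 * e)) * Real.log r) := by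
  have hpi := Real.pi_pos
  have hpi3 := Real.pi_gt_three
  have hpi4 : Real.pi < 3.15 := Real.pi_lt_d2
  obtain ⟨q, hqd⟩ : ∃ q : ℝ, q = Real.log r := ⟨_, rfl⟩
  rw [← hqd] at hq H Hm hr ⊢
  have hpe : Real.pi * e ≤ 1 := by nlinarith
  have hie : e ≤ 1 / Real.pi - e := by
    have : 1 / 4 ≤ 1 / Real.pi := by
      apply div_le_div_of_nonneg_left (by norm_num) hpi
      linarith
    linarith
  have hcnt : ∀ α : ℝ, 0 ≤ α → ((((Finset.Icc 1 r).filter fun b : ℕ => α * q ≤ x b).card : ℕ) : ℝ) ≤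
      Real.exp ((max (1 - Real.pi ^ 2 * α ^ 2) 0 + 8 * e) * q) := by
    intro α hα
    rcases le_total α (1 / Real.pi - e) with h | h
    · refine (H α hα h).trans ?_
      apply Real.exp_le_exp.2
      apply mul_le_mul_of_nonneg_right _ hq.le
      have := le_max_left (1 - Real.pi ^ 2 * α ^ 2) 0
      linarith
    · have h1 := H (1 / Real.pi - e) (by linarith) le_rfl
      refine le_trans (le_trans ?_ h1) ?_
      · norm_cast
        apply Finset.card_le_card
        intro b hb
        rw [Finset.mem_filter] at hb ⊢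
        exact ⟨hb.1, (mul_le_mul_of_nonneg_right h hq.le).trans hb.2⟩
      · apply Real.exp_le_exp.2
        apply mul_le_mul_of_nonneg_right _ hq.le
        have h2 := le_max_right (1 - Real.pi ^ 2 * α ^ 2) 0
        have h3 : Real.pi ^ 2 * (1 / Real.pi - e) ^ 2 = 1 - 2 * (Real.pi * e) + (Real.pi * e) ^ 2 := by
          field_simp
          ring
        rw [h3]
        nlinarith [sq_nonneg (Real.pi * e)]
  obtain ⟨M, hM⟩ : ∃ M : ℕ, M = ⌊(1 / Real.pi + e) / e⌋₊ + 1 := ⟨_, rfl⟩
  have hMj : ∀ j < M, (j : ℝ) * e ≤ 1 / Real.pi + e := by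
    intro j hj
    have h1 : j ≤ ⌊(1 / Real.pi + e) / e⌋₊ := by omega
    have h2 : (j : ℝ) ≤ (1 / Real.pi + e) / e := (Nat.cast_le.2 h1).trans (Nat.floor_le (by positivity))
    rwa [le_div_iff₀ he] at h2
  have hMle : (M : ℝ) + 1 ≤ 1 / e + 3 := by
    have h1 : (⌊(1 / Real.pi + e) / e⌋₊ : ℝ) ≤ (1 / Real.pi + e) / e := Nat.floor_le (by positivity)
    have h2 : (1 / Real.pi + e) / e ≤ 1 / e + 1 := by
      rw [add_div, div_self he.ne']
      have : 1 / Real.pi / e ≤ 1 / e := by
        apply div_le_div_of_nonneg_right _ he.le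
        rw [div_le_one hpi]
        linarith
      linarith
    rw [hM]
    push_cast
    linarith
  have hpt : ∀ b ∈ Finset.Icc 1 r, Real.exp (l * x b) ≤ 1 + ∑ j ∈ Finset.range M,
      (if (j : ℝ) * e * q ≤ x b then Real.exp (l * (((j : ℝ) + 1) * e * q)) else 0) := by
    intro b hb
    rw [Finset.mem_Icc] at hb
    have hnn : ∀ j ∈ Finset.range M, 0 ≤ (if (j : ℝ) * e * q ≤ x b then Real.exp (l * (((j : ℝ) + 1) * e * q)) else 0) := by
      intro j _
      split_ifs
      · exact (Real.exp_pos _).le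
      · exact le_refl _
    rcases le_total (x b) 0 with h | h
    · have h1 : Real.exp (l * x b) ≤ 1 := by
        rw [Real.exp_le_one_iff]
        exact mul_nonpos_of_nonneg_of_nonpos hl h
      have h2 := Finset.sum_nonneg hnn
      linarith
    · have heq : 0 < e * q := mul_pos he hq
      obtain ⟨j, hj⟩ : ∃ j : ℕ, j = ⌊x b / (e * q)⌋₊ := ⟨_, rfl⟩
      have hj1 : (j : ℝ) * e * q ≤ x b := by
        rw [mul_assoc, hj, ← le_div_iff₀ heq]
        exact Nat.floor_le (by positivity)
      have hj2 : x b ≤ ((j : ℝ) + 1) * e * q := by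
        rw [mul_assoc, hj, ← div_le_iff₀ heq]
        exact (Nat.lt_floor_add_one _).le
      have hjM : j < M := by
        have h3 := Hm b hb.1 hb.2
        have h4 : x b / (e * q) ≤ (1 / Real.pi + e) / e := by
          rw [div_le_div_iff₀ heq he]
          calc x b * e ≤ (1 / Real.pi + e) * q * e := by gcongr
            _ = (1 / Real.pi + e) * (e * q) := by ring
        rw [hM, hj]
        exact Nat.lt_succ_of_le (Nat.floor_le_floor h4)
      have h5 := Finset.single_le_sum hnn (Finset.mem_range.2 hjM)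
      rw [if_pos hj1] at h5
      have h6 : Real.exp (l * x b) ≤ Real.exp (l * (((j : ℝ) + 1) * e * q)) := by
        apply Real.exp_le_exp.2
        exact mul_le_mul_of_nonneg_left hj2 hl
      linarith
  have hr0 : (0 : ℝ) < r := by
    rcases Nat.eq_zero_or_pos r with h | h
    · rw [h] at hqd
      simp at hqd
      linarith
    · exact_mod_cast h
  have hrq : (r : ℝ) = Real.exp q := by rw [hqd, Real.exp_log hr0]
  have hX : ∀ j ∈ Finset.range M, ∑ b ∈ Finset.Icc 1 r, (if (j : ℝ) * e * q ≤ x b then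
      Real.exp (l * (((j : ℝ) + 1) * e * q)) else 0) ≤ Real.exp ((fe l + (2 * l * e + 8 * e)) * q) := by
    intro j hj
    rw [Finset.mem_range] at hj
    rw [← Finset.sum_filter, Finset.sum_const, nsmul_eq_mul]
    have h1 := hcnt ((j : ℝ) * e) (by positivity)
    have h2 := fe_up l e ((j : ℝ) * e) hl he.le (by positivity) (hMj j hj)
    calc ((((Finset.Icc 1 r).filter fun b : ℕ => (j : ℝ) * e * q ≤ x b).card : ℕ) : ℝ) *
        Real.exp (l * (((j : ℝ) + 1) * e * q)) ≤
        Real.exp ((max (1 - Real.pi ^ 2 * ((j : ℝ) * e) ^ 2) 0 + 8 * e) * q) *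
          Real.exp (l * (((j : ℝ) + 1) * e * q)) := by
          apply mul_le_mul_of_nonneg_right h1 (Real.exp_pos _).le
      _ = Real.exp ((l * ((j : ℝ) * e) + max (1 - Real.pi ^ 2 * ((j : ℝ) * e) ^ 2) 0 + (l * e + 8 * e)) * q) := by
          rw [← Real.exp_add]
          congr 1
          ring
      _ ≤ _ := by
          apply Real.exp_le_exp.2
          apply mul_le_mul_of_nonneg_right _ hq.le
          linarith
  calc ∑ b ∈ Finset.Icc 1 r, Real.exp (l * x b) ≤ ∑ b ∈ Finset.Icc 1 r, (1 + ∑ j ∈ Finset.range M,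
      (if (j : ℝ) * e * q ≤ x b then Real.exp (l * (((j : ℝ) + 1) * e * q)) else 0)) := Finset.sum_le_sum hpt
    _ = (r : ℝ) + ∑ j ∈ Finset.range M, ∑ b ∈ Finset.Icc 1 r, (if (j : ℝ) * e * q ≤ x b then
      Real.exp (l * (((j : ℝ) + 1) * e * q)) else 0) := by
        rw [Finset.sum_add_distrib, Finset.sum_comm, Finset.sum_const, Nat.card_Icc, nsmul_eq_mul, mul_one]
        simp
    _ ≤ Real.exp ((fe l + (2 * l * e + 8 * e)) * q) + ∑ j ∈ Finset.range M,
        Real.exp ((fe l + (2 * l * e + 8 * e)) * q) := by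
        apply add_le_add _ (Finset.sum_le_sum hX)
        rw [hrq]
        apply Real.exp_le_exp.2
        have h1 := fe_one l
        have h2 : 0 ≤ 2 * l * e + 8 * e := by positivity
        nlinarith
    _ = ((M : ℝ) + 1) * Real.exp ((fe l + (2 * l * e + 8 * e)) * q) := by
        rw [Finset.sum_const, Finset.card_range, nsmul_eq_mul]
        ring
    _ ≤ Real.exp (e * q) * Real.exp ((fe l + (2 * l * e + 8 * e)) * q) := by
        apply mul_le_mul_of_nonneg_right (hMle.trans hr) (Real.exp_pos _).le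
    _ = _ := by
        rw [← Real.exp_add]
        congr 1
        ring

/-- lower bound -/
lemma part_low (r : ℕ) (hq : 0 < Real.log r) (x : ℕ → ℝ) (e l : ℝ) (he : 0 < e) (he1 : e ≤ 1 / 10) (hl : 0 ≤ l)
    (H : ∀ α : ℝ, 0 ≤ α → α ≤ 1 / Real.pi - e → Real.exp ((1 - Real.pi ^ 2 * α ^ 2 - e) * Real.log r) ≤
      ((((Finset.Icc 1 r).filter fun b : ℕ => α * Real.log r ≤ x b).card : ℕ) : ℝ)) :
    Real.exp ((fe l - (2 * l * e + 9 * e)) * Real.log r) ≤ ∑ b ∈ Finset.Icc 1 r, Real.exp (l * x b) := by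
  obtain ⟨α, hα0, hα1, hα2⟩ := fe_low l e hl he he1
  have h1 := H α hα0 hα1
  calc Real.exp ((fe l - (2 * l * e + 9 * e)) * Real.log r) ≤
      Real.exp ((1 - Real.pi ^ 2 * α ^ 2 - e) * Real.log r) * Real.exp (l * (α * Real.log r)) := by
        rw [← Real.exp_add]
        apply Real.exp_le_exp.2
        have h2 : (1 - Real.pi ^ 2 * α ^ 2 - e) * Real.log r + l * (α * Real.log r) =
          (l * α + (1 - Real.pi ^ 2 * α ^ 2) - e) * Real.log r := by ring
        rw [h2]
        apply mul_le_mul_of_nonneg_right _ hq.le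
        have : 0 ≤ l * e := by positivity
        linarith
    _ ≤ ((((Finset.Icc 1 r).filter fun b : ℕ => α * Real.log r ≤ x b).card : ℕ) : ℝ) * Real.exp (l * (α * Real.log r)) := by
        apply mul_le_mul_of_nonneg_right h1 (Real.exp_pos _).le
    _ = ∑ b ∈ (Finset.Icc 1 r).filter (fun b : ℕ => α * Real.log r ≤ x b), Real.exp (l * (α * Real.log r)) := by
        rw [Finset.sum_const, nsmul_eq_mul]
    _ ≤ ∑ b ∈ (Finset.Icc 1 r).filter (fun b : ℕ => α * Real.log r ≤ x b), Real.exp (l * x b) := by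
        apply Finset.sum_le_sum
        intro b hb
        rw [Finset.mem_filter] at hb
        apply Real.exp_le_exp.2
        exact mul_le_mul_of_nonneg_left hb.2 hl
    _ ≤ _ := by
        apply Finset.sum_le_sum_of_subset_of_nonneg (Finset.filter_subset _ _)
        intro b _ _
        exact (Real.exp_pos _).le

/-- both parts, both signs -/
lemma part_both (r : ℕ) (hq : 0 < Real.log r) (T t : ℝ) (e : ℝ) (he : 0 < e) (he1 : e ≤ 1 / 10)
    (hr : 1 / e + 3 ≤ Real.exp (e * Real.log r)) (hG : Good e r T t) (l : ℝ) :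
    Real.exp ((fe l - (2 * |l| * e + 9 * e)) * Real.log r) ≤ ∑ b ∈ Finset.Icc 1 r, Real.exp (l * YY T b t) ∧
    ∑ b ∈ Finset.Icc 1 r, Real.exp (l * YY T b t) ≤ Real.exp ((fe l + (2 * |l| * e + 9 * e)) * Real.log r) := by
  classical
  obtain ⟨hG1, hG2⟩ := hG
  have key : ∀ σ : ℝ, σ = 1 ∨ σ = -1 → ∀ m : ℝ, 0 ≤ m →
      Real.exp ((fe m - (2 * m * e + 9 * e)) * Real.log r) ≤ ∑ b ∈ Finset.Icc 1 r, Real.exp (m * (σ * YY T b t)) ∧
      ∑ b ∈ Finset.Icc 1 r, Real.exp (m * (σ * YY T b t)) ≤ Real.exp ((fe m + (2 * m * e + 9 * e)) * Real.log r) := by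
    intro σ hσ m hm
    have hσa : |σ| = 1 := by rcases hσ with h | h <;> rw [h] <;> norm_num
    constructor
    · apply part_low r hq (fun b => σ * YY T b t) e m he he1 hm
      intro α h0 h1
      refine (hG1 σ hσ α h0 h1).1.trans (le_of_eq ?_)
      unfold cnt
      congr 2
    · apply part_up r hq (fun b => σ * YY T b t) e m he he1 hm _ _ hr
      · intro α h0 h1
        refine le_trans (le_of_eq ?_) (hG1 σ hσ α h0 h1).2
        unfold cnt
        congr 2
      · intro b hb1 hb2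
        refine (le_abs_self _).trans ?_
        rw [abs_mul, hσa, one_mul]
        exact hG2 b hb1 hb2
  rcases le_total 0 l with h | h
  · have := key 1 (Or.inl rfl) l h
    simpa only [one_mul, abs_of_nonneg h] using this
  · have := key (-1) (Or.inr rfl) (-l) (by linarith)
    rw [fe_neg] at this
    have h2 : ∀ b : ℕ, -l * (-1 * YY T b t) = l * YY T b t := fun b => by ring
    simp only [h2] at this
    rw [abs_of_nonpos h]
    exact this

/-- the event with the partition function -/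
def Good2 (ε : ℝ) (r : ℕ) (T t : ℝ) : Prop :=
  Good ε r T t ∧ ∀ l : ℝ, |l| ≤ 1 / ε →
    Real.exp ((fe l - ε) * Real.log r) ≤ ∑ b ∈ Finset.Icc 1 r, Real.exp (l * YY T b t) ∧
    ∑ b ∈ Finset.Icc 1 r, Real.exp (l * YY T b t) ≤ Real.exp ((fe l + ε) * Real.log r)

theorem freezing (hRH : RHs) (ε : ℝ) (hε : 0 < ε) : Sml fun r T => {t | ¬ Good2 ε r T t} := by
  obtain ⟨e, hed⟩ : ∃ e : ℝ, e = min (1 / 10) (ε / (2 * (1 / ε) + 9)) := ⟨_, rfl⟩
  have he0 : 0 < e := by rw [hed]; exact lt_min (by norm_num) (by positivity)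
  have he1 : e ≤ 1 / 10 := by rw [hed]; exact min_le_left _ _
  have he2 : (2 * (1 / ε) + 9) * e ≤ ε := by
    have : e ≤ ε / (2 * (1 / ε) + 9) := by rw [hed]; exact min_le_right _ _
    rw [le_div_iff₀ (by positivity)] at this
    linarith
  have hexp : ∀ᶠ r : ℕ in atTop, 1 / e + 3 ≤ Real.exp (e * Real.log r) :=
    (Real.tendsto_exp_atTop.comp ((Real.tendsto_log_atTop.comp tendsto_natCast_atTop_atTop).const_mul_atTop
      he0)).eventually_ge_atTop _
  refine Sml_mono (Sml_union (spectrum hRH ε hε) (spectrum hRH e he0)) ?_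
  filter_upwards [hexp, eventually_ge_atTop 2] with r hr hr2
  filter_upwards with T
  intro t ht
  by_contra hn
  simp only [Set.mem_union, Set.mem_ofPred_eq, not_or, not_not] at hn
  apply ht
  have hq : 0 < Real.log r := Real.log_pos (by exact_mod_cast hr2)
  refine ⟨hn.1, fun l hl => ?_⟩
  have h1 := part_both r hq T t e he0 he1 hr hn.2 l
  have h2 : 2 * |l| * e + 9 * e ≤ ε := by
    refine le_trans ?_ he2
    nlinarith
  constructor
  · refine le_trans ?_ h1.1
    apply Real.exp_le_exp.2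
    apply mul_le_mul_of_nonneg_right _ hq.le
    linarith
  · refine h1.2.trans ?_
    apply Real.exp_le_exp.2
    apply mul_le_mul_of_nonneg_right _ hq.le
    linarith

end

end Pool.Agent.U403.Thick
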