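import Pool.Agent.U403.Thick.SecN

/-! # Thick points: the lower bound -/

set_option autoImplicit false

open Filter Topology MeasureTheory Set
open Pool.Agent.Y743.CL
open Pool.Agent.R320.JL
open SG (NZ)
open Pool.Agent.U403.Max

namespace Pool.Agent.U403.Thick

noncomputable section

lemma ln4N {β e1 q K C1 : ℝ} (heβ : e1 ≤ β) (he : 0 < e1) (he1 : e1 ≤ 1 / 10) (hβ1 : β ≤ 1) (hq : 0 < q) (hK : 3 ≤ K)
    (hK2 : 2 / e1 ≤ K) (h : 8 * K * C1 ≤ e1 * q) : (β - 4 * e1) / Real.pi * q ≤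
      (2 * Real.pi * β - e1) * ((K - 2) * ((1 - e1) * ((q / K - C1) / (2 * Real.pi ^ 2)))) := by
  have hpi := Real.pi_gt_three
  have hpi4 := Real.pi_le_four
  have hK0 : 0 < K := by linarith
  rw [div_le_iff₀ he] at hK2
  have h2 : (1 - e1) * K ≤ K - 2 := by linarith only [hK2]
  have heq : 0 < e1 * q := by positivity
  have h3 : (1 - e1) * q / K ≤ q / K - C1 := by
    rw [div_sub' hK0.ne']
    apply div_le_div_of_nonneg_right _ hK0.le
    linarith only [h, heq]
  have h4 : (1 - e1) * q / K / (2 * Real.pi ^ 2) ≤ (q / K - C1) / (2 * Real.pi ^ 2) :=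
    div_le_div_of_nonneg_right h3 (by positivity)
  have he9 : 0 ≤ 1 - e1 := by linarith only [he1]
  have h5 : (1 - e1) * ((1 - e1) * q / K / (2 * Real.pi ^ 2)) ≤ (1 - e1) * ((q / K - C1) / (2 * Real.pi ^ 2)) :=
    mul_le_mul_of_nonneg_left h4 he9
  have h6 : (1 - e1) * K * ((1 - e1) * ((1 - e1) * q / K / (2 * Real.pi ^ 2))) ≤
      (K - 2) * ((1 - e1) * ((q / K - C1) / (2 * Real.pi ^ 2))) :=
    mul_le_mul h2 h5 (by positivity) (by linarith only [hK])
  have e : (1 - e1) * K * ((1 - e1) * ((1 - e1) * q / K / (2 * Real.pi ^ 2))) =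
      (1 - e1) ^ 3 * (q / (2 * Real.pi ^ 2)) := by
    field_simp
  rw [e] at h6
  obtain ⟨Z, hZ⟩ : ∃ Z : ℝ, Z = (K - 2) * ((1 - e1) * ((q / K - C1) / (2 * Real.pi ^ 2))) := ⟨_, rfl⟩
  rw [← hZ] at h6 ⊢
  obtain ⟨y, hy⟩ : ∃ y : ℝ, y = q / (2 * Real.pi ^ 2) := ⟨_, rfl⟩
  have hy0 : 0 < y := by rw [hy]; positivity
  rw [← hy] at h6
  have e2 : (β - 4 * e1) / Real.pi * q = (β - 4 * e1) * (2 * Real.pi) * y := by rw [hy]; field_simp
  rw [e2]
  have h9 : 1 - 3 * e1 ≤ (1 - e1) ^ 3 := by nlinarith only [he, he1, sq_nonneg e1, mul_pos he he]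
  have hZ0 : 0 ≤ Z := le_trans (by positivity) h6
  have hZ1 : (1 - 3 * e1) * y ≤ Z := (mul_le_mul_of_nonneg_right h9 hy0.le).trans h6
  rcases le_or_gt β (4 * e1) with hc | hc
  · have h10 : (β - 4 * e1) * (2 * Real.pi) * y ≤ 0 := by
      have : (β - 4 * e1) * (2 * Real.pi) ≤ 0 := mul_nonpos_of_nonpos_of_nonneg (by linarith) (by positivity)
      exact mul_nonpos_of_nonpos_of_nonneg this hy0.le
    have h11 : 0 ≤ 2 * Real.pi * β - e1 := by nlinarith
    have := mul_nonneg h11 hZ0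
    linarith
  · have h11 : 0 ≤ 2 * Real.pi * β - e1 := by nlinarith
    have h12 := mul_le_mul_of_nonneg_left hZ1 h11
    have h13 : (β - 4 * e1) * (2 * Real.pi) * y ≤ (2 * Real.pi * β - e1) * ((1 - 3 * e1) * y) := by
      have h14 : (β - 4 * e1) * (2 * Real.pi) ≤ (2 * Real.pi * β - e1) * (1 - 3 * e1) := by
        have : 3 * e1 * (2 * Real.pi * β) ≤ 3 * e1 * (2 * Real.pi * 1) := by gcongr
        nlinarith only [this, he, he1, hpi]
      calc (β - 4 * e1) * (2 * Real.pi) * y ≤ (2 * Real.pi * β - e1) * (1 - 3 * e1) * y :=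
            mul_le_mul_of_nonneg_right h14 hy0.le
        _ = _ := by ring
    linarith

/-- **the number of thick points, lower bound** -/
theorem lowN (β : ℝ) (hβ : 0 < β) (e1 : ℝ) (he : 0 < e1) (he1 : e1 ≤ 1 / 10) (heβ : e1 ≤ β) (hβ1 : β ≤ 1 - e1)
    (κ : ℝ) (hκ : 0 < κ) (K : ℕ) (hK : 3 ≤ K)
    (hK2 : 2 / e1 ≤ K) (η : ℝ) (hη : 0 < η) : ∀ᶠ r : ℕ in atTop, ∀ᶠ T : ℝ in atTop, ∀ σ : ℝ, σ = 1 ∨ σ = -1 →
    1 - η ≤ (PT T).real {t | Real.exp ((1 - β ^ 2 - 2 * e1) * Real.log r) ≤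
      (((Finset.range r).filter fun b : ℕ => (β - 4 * e1) / Real.pi * Real.log r <
      σ * fld (Real.log T / (κ * Real.log r)) (PI T (((K : ℝ) - 1) * Real.log r / K) (Real.log r / K))
        (t + 2 * Real.pi * b / Real.log T)).card : ℝ)} := by
  obtain ⟨C1, hC1, hpar⟩ := par
  obtain ⟨δ, hδ⟩ : ∃ δ : ℝ, δ = min (e1 / 128) (η / 64) := ⟨_, rfl⟩
  have hδ0 : 0 < δ := by rw [hδ]; positivity
  have hδe : δ ≤ e1 / 128 := by rw [hδ]; exact min_le_left _ _
  have hδη : δ ≤ η / 64 := by rw [hδ]; exact min_le_right _ _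
  have hδ1 : δ ≤ 1 / 100 := by linarith
  have hK0 : (0 : ℝ) < K := by exact_mod_cast (by omega : 0 < K)
  have hK3 : (3 : ℝ) ≤ K := by exact_mod_cast hK
  have hpi := Real.pi_pos
  have hpi3 := Real.pi_gt_three
  have hpi4 := Real.pi_lt_d2
  have hlogr : Tendsto (fun r : ℕ => Real.log (r : ℝ)) atTop atTop :=
    Real.tendsto_log_atTop.comp tendsto_natCast_atTop_atTop
  filter_upwards [hlogr.eventually (num κ e1 C1 K hK he hC1 hδ0), hlogr.eventually (num4 K hK C1 hC1 hδ0),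
    hlogr.eventually (num78 K hK C1 hC1 hδ0), eventually_ge_atTop 1,
    hlogr.eventually ((y_top (show 0 < K by omega)).eventually_ge_atTop (160 * K)),
    hlogr.eventually_ge_atTop (4 * Real.log (1 / δ) / e1)] with r hn h4 h78 hr1 hy hqδ
  have hr0 : (0 : ℝ) < r := by exact_mod_cast hr1
  obtain ⟨q, hq⟩ : ∃ q : ℝ, q = Real.log r := ⟨_, rfl⟩
  have hrq : (r : ℝ) = Real.exp q := by rw [hq, Real.exp_log hr0]
  rw [← hq] at hn h4 h78 hy hqδ ⊢
  obtain ⟨q1, q2, q3, q4, q5, q6, q7⟩ := hn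
  obtain ⟨h7, h8⟩ := h78
  have hq0 : 0 < q := by linarith
  obtain ⟨M, hM⟩ : ∃ M : ℕ, M = ⌊Real.exp (q / K) / 8⌋₊ := ⟨_, rfl⟩
  rw [← hM] at h7 h8
  have hM8 : (M : ℝ) ≤ Real.exp (q / K) / 8 := by
    rw [hM]; exact Nat.floor_le (by positivity)
  have h4M := h4 M (by have := Real.exp_pos (q / K); linarith)
  obtain ⟨D, hD1, hD⟩ := mom_near (4 * M) (32 * (q + K * C1)) δ (by positivity) hδ0
  obtain ⟨B0, hB0⟩ : ∃ B0 : ℝ, B0 = 1 / (256 * D) := ⟨_, rfl⟩
  have hB00 : 0 < B0 := by rw [hB0]; positivity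
  have hqK : 0 < q / K := by positivity
  -- the parameters of the levels
  have hlev : ∀ᶠ T : ℝ in atTop, ∀ j ∈ Finset.range (K - 2),
    (∑ p ∈ PI T (((K : ℝ) - 1 - j) * q / K) (((K : ℝ) - 2 - j) * q / K), be (Real.log T / (κ * q)) p ^ 2 ≤
      (q / K + C1) / Real.pi ^ 2) ∧
    ((1 - e1) * ((q / K - C1) / (2 * Real.pi ^ 2)) ≤
      vI (Real.log T / (κ * q)) (PI T (((K : ℝ) - 1 - j) * q / K) (((K : ℝ) - 2 - j) * q / K))) ∧
    (∀ p ∈ PI T (((K : ℝ) - 1 - j) * q / K) (((K : ℝ) - 2 - j) * q / K), be (Real.log T / (κ * q)) p ^ 2 ≤ B0) ∧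
    (∀ d : ℕ, 1 ≤ d → d ≤ r → cI (Real.log T / (κ * q)) (PI T (((K : ℝ) - 1 - j) * q / K) (((K : ℝ) - 2 - j) * q / K))
      (2 * Real.pi * d / Real.log T) ≤
      Real.exp (((K : ℝ) - 1 - j) * q / K) / d + Real.exp (-q) + 4 * (κ * q * Real.exp (-(q / K))) * (q / K + C1)) := by
    rw [Filter.eventually_all_finset]
    intro j hj
    rw [Finset.mem_range] at hj
    have hj' : (j : ℝ) + 3 ≤ K := by exact_mod_cast (by omega : j + 3 ≤ K)
    have hj0 : (0 : ℝ) ≤ j := Nat.cast_nonneg _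
    have hv1 : q / K ≤ ((K : ℝ) - 2 - j) * q / K := by
      apply div_le_div_of_nonneg_right _ hK0.le
      exact le_mul_of_one_le_left hq0.le (by linarith only [hj'])
    have hev : Real.exp (-(((K : ℝ) - 2 - j) * q / K)) ≤ Real.exp (-(q / K)) := Real.exp_le_exp.2 (by linarith)
    have hkq : κ * q * Real.exp (-(((K : ℝ) - 2 - j) * q / K)) ≤ κ * q * Real.exp (-(q / K)) :=
      mul_le_mul_of_nonneg_left hev (by positivity)
    have huv : ((K : ℝ) - 1 - j) * q / K - ((K : ℝ) - 2 - j) * q / K = q / K := by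
      field_simp
      ring
    have := hpar κ q (((K : ℝ) - 1 - j) * q / K) (((K : ℝ) - 2 - j) * q / K) B0 (Real.exp (-q)) r hκ hq0
      (by linarith) (by linarith) (by linarith) hB00 (Real.exp_pos _)
    rw [huv] at this
    filter_upwards [this] with T hT
    obtain ⟨g1, g2, g3, g4⟩ := hT
    have hqKC : 0 ≤ q / K - C1 := by
      rw [sub_nonneg, le_div_iff₀ hK0]
      have h2 : e1 * q ≤ 1 / 10 * q := mul_le_mul_of_nonneg_right he1 hq0.le
      linarith only [q2, h2, hq0]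
    refine ⟨g1, le_trans ?_ g2, g3, fun d hd1 hdr => (g4 d hd1 hdr).trans ?_⟩
    · apply mul_le_mul_of_nonneg_right _ (by positivity)
      linarith
    · have h9 : 4 * (κ * q * Real.exp (-(((K : ℝ) - 2 - j) * q / K))) * (q / K + C1) ≤
        4 * (κ * q * Real.exp (-(q / K))) * (q / K + C1) := by
        apply mul_le_mul_of_nonneg_right _ (by positivity)
        linarith
      linarith
  filter_upwards [hlev, eventually_ge_atTop D, eventually_ge_atTop 3] with T hT hTD hT3 σ hσ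
  have hT1 : 1 ≤ T := by linarith
  have hT0 : 0 < T := by linarith
  have := PT_univ hT0
  obtain ⟨L, hL⟩ : ∃ L : ℝ, L = Real.log T := ⟨_, rfl⟩
  have hL0 : 0 < L := by rw [hL]; exact Real.log_pos (by linarith)
  rw [← hL] at hT ⊢
  obtain ⟨l, hl⟩ : ∃ l : ℝ, l = L / (κ * q) := ⟨_, rfl⟩
  rw [← hl] at hT ⊢
  obtain ⟨J, hJ⟩ : ∃ J : ℕ, J = K - 2 := ⟨_, rfl⟩
  have hJK : (J : ℝ) ≤ K := by exact_mod_cast (by omega : J ≤ K)
  have hJK2 : (J : ℝ) = K - 2 := by
    rw [hJ, Nat.cast_sub (by omega)]; norm_num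
  have hII : ∀ j < J, II T q K j = PI T (((K : ℝ) - 1 - j) * q / K) (((K : ℝ) - 2 - j) * q / K) := by
    intro j hj
    unfold II
    rw [if_pos (by omega)]
  obtain ⟨X, hX⟩ : ∃ X : ℕ, X = XK (Real.exp (-(q / K))) T := ⟨_, rfl⟩
  have hX1 : 1 ≤ X := by
    rw [hX]
    unfold XK
    apply Nat.le_floor
    rw [Nat.cast_one]
    exact Real.one_le_rpow hT1 (Real.exp_pos _).le
  have hIP : ∀ j < J, II T q K j ⊆ Pr X := by
    intro j hj
    rw [hII j hj, hX]
    apply PI_sub hT1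
    apply div_le_div_of_nonneg_right _ hK0.le
    have hj' : (j : ℝ) + 3 ≤ K := by exact_mod_cast (by omega : j + 3 ≤ K)
    exact le_mul_of_one_le_left hq0.le (by linarith only [hj'])
  have hdis : ∀ i < J, ∀ j < J, i ≠ j → Disjoint (II T q K i) (II T q K j) := by
    have h1 : ∀ i < J, ∀ j < J, i < j → Disjoint (II T q K i) (II T q K j) := by
      intro i hi j hj hij
      rw [hII i hi, hII j hj]
      apply PI_disj hT1
      apply div_le_div_of_nonneg_right _ hK0.le
      have : (i : ℝ) + 1 ≤ j := by exact_mod_cast hij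
      exact mul_le_mul_of_nonneg_right (by linarith only [this]) hq0.le
    intro i hi j hj hij
    rcases lt_or_gt_of_ne hij with h | h
    · exact h1 i hi j hj h
    · exact (h1 j hj i hi h).symm
  have hMX : ((X ^ (4 * M) : ℕ) : ℝ) ≤ Real.sqrt T := by
    rw [hX]
    apply XK_pow hT1
    push_cast
    have e : Real.exp (-(q / K)) * Real.exp (q / K) = 1 := by rw [← Real.exp_add]; simp
    have h1 := mul_le_mul_of_nonneg_left hM8 (Real.exp_pos (-(q / K))).le
    linarith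
  obtain ⟨hh, hhh⟩ : ∃ hh : ℕ → ℝ, hh = fun b : ℕ => 2 * Real.pi * b / L := ⟨_, rfl⟩
  obtain ⟨V0, hV0⟩ : ∃ V0 : ℝ, V0 = Real.exp (q / (2 * K)) := ⟨_, rfl⟩
  have hV00 : 0 < V0 := by rw [hV0]; exact Real.exp_pos _
  obtain ⟨A, hA⟩ : ∃ A : Set ℝ, A = Ab l J r (II T q K) hh V0 := ⟨_, rfl⟩
  have hAm : MeasurableSet A := by rw [hA]; exact Ab_meas _ _ _ _ _ _
  obtain ⟨vhi, hvhi⟩ : ∃ vhi : ℝ, vhi = (q / K + C1) / (2 * Real.pi ^ 2) := ⟨_, rfl⟩
  have hvhi0 : 0 ≤ vhi := by rw [hvhi]; positivity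
  obtain ⟨vlo, hvlo⟩ : ∃ vlo : ℝ, vlo = (1 - e1) * ((q / K - C1) / (2 * Real.pi ^ 2)) := ⟨_, rfl⟩
  obtain ⟨lam, hlam⟩ : ∃ lam : ℝ, lam = 2 * Real.pi * β := ⟨_, rfl⟩
  have hlam0 : 0 < lam := by rw [hlam]; positivity
  have hlamx : lam ≤ 2 * Real.pi * (1 - e1) := by
    rw [hlam]; exact mul_le_mul_of_nonneg_left hβ1 (by positivity)
  have hlam63 : lam ≤ 63 / 10 := by
    rw [hlam]
    have : 2 * Real.pi * β ≤ 2 * Real.pi * 1 := mul_le_mul_of_nonneg_left (by linarith) (by positivity)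
    linarith only [this, hpi4]
  have hlam7 : lam + e1 ≤ 8 := by linarith only [hlam63, he1]
  have hlam64 : (lam + e1) ^ 2 ≤ 64 := by
    have := pow_le_pow_left₀ (by linarith only [hlam0, he] : 0 ≤ lam + e1) hlam7 2
    norm_num at this
    exact this
  have hpi9 : 9 ≤ Real.pi ^ 2 := by nlinarith only [hpi3]
  obtain ⟨w, hw⟩ : ∃ w : ℝ, w = e1 * q / (4 * Real.pi * K) := ⟨_, rfl⟩
  have hw0 : 0 ≤ w := by rw [hw]; positivity
  -- the variances
  have hv1 : ∀ j ∈ Finset.range J, vI l (II T q K j) ≤ vhi := by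
    intro j hj
    rw [hJ] at hj
    rw [hII j (by rw [hJ]; exact Finset.mem_range.1 hj)]
    have := (hT j hj).1
    unfold vI
    rw [hvhi]
    have e : (q / K + C1) / (2 * Real.pi ^ 2) = (q / K + C1) / Real.pi ^ 2 / 2 := by ring
    rw [e]
    linarith
  have hv2 : ∀ j ∈ Finset.range J, vlo ≤ vI l (II T q K j) := by
    intro j hj
    rw [hJ] at hj
    rw [hII j (by rw [hJ]; exact Finset.mem_range.1 hj)]
    have := (hT j hj).2.1
    rw [hvlo]
    exact this
  obtain ⟨V, hV⟩ : ∃ V : ℝ, V = ∑ j ∈ Finset.range J, vI l (II T q K j) := ⟨_, rfl⟩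
  have hVlo : J * vlo ≤ V := by
    rw [hV]
    refine le_trans (le_of_eq ?_) (Finset.sum_le_sum hv2)
    rw [Finset.sum_const, Finset.card_range, nsmul_eq_mul]
  have hVhi : V ≤ J * vhi := by
    rw [hV]
    refine (Finset.sum_le_sum hv1).trans (le_of_eq ?_)
    rw [Finset.sum_const, Finset.card_range, nsmul_eq_mul]
  -- the Laplace transforms
  have hAV : ∀ t ∈ A, ∀ j < J, ∀ b < r, |fld l (II T q K j) (t + hh b)| ≤ V0 := by
    intro t ht j hj b hb
    rw [hA] at ht
    exact (ht j hj b hb).le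
  have hKK : 8 * (lam + e1) ^ 2 * ∑ j ∈ Finset.range J, vI l (II T q K j) ≤ 32 * (q + K * C1) := by
    rw [← hV]
    have h2 : V ≤ (q + K * C1) / 18 := by
      refine hVhi.trans ?_
      refine (mul_le_mul_of_nonneg_right hJK hvhi0).trans ?_
      rw [hvhi]
      have e : (K : ℝ) * ((q / K + C1) / (2 * Real.pi ^ 2)) = (q + K * C1) / (2 * Real.pi ^ 2) := by
        field_simp
      rw [e]
      apply div_le_div_of_nonneg_left (by positivity) (by norm_num)
      linarith only [hpi9]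
    have h3 : 0 ≤ V := by
      rw [hV]; exact Finset.sum_nonneg fun j _ => vI_nonneg _ _
    calc 8 * (lam + e1) ^ 2 * V ≤ 8 * 64 * V := by gcongr
      _ ≤ 8 * 64 * ((q + K * C1) / 18) := by gcongr
      _ ≤ _ := by
        have : 0 ≤ q + K * C1 := by positivity
        linarith
  have hB : ∀ j < J, ∀ p ∈ II T q K j, be l p ^ 2 ≤ B0 := by
    intro j hj p hp
    rw [hII j hj] at hp
    exact (hT j (by rw [Finset.mem_range]; omega)).2.2.1 p hp
  have hBD : 4 * ((lam + e1) ^ 2 * B0) ≤ 1 / D := by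
    rw [hB0]
    calc 4 * ((lam + e1) ^ 2 * (1 / (256 * D))) ≤ 4 * (64 * (1 / (256 * D))) := by gcongr
      _ = 1 / D := by field_simp; norm_num
  -- the complement
  have hAc : (PT T).real Aᶜ ≤ K * (Real.exp q * (17 * (((40 * K).factorial : ℝ) * (q + C1) ^ (40 * K)) /
      Real.exp (q / (2 * K)) ^ (2 * (40 * K)))) := by
    have hXk : ((X ^ (40 * K + 40 * K) : ℕ) : ℝ) ≤ Real.sqrt T := by
      rw [hX]
      apply XK_pow hT1
      push_cast
      have h1 : 160 * (K : ℝ) ≤ Real.exp (q / K) := by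
        refine hy.trans (Real.exp_le_exp.2 ?_)
        apply div_le_div_of_nonneg_left hq0.le hK0
        linarith only [hK0]
      have e : Real.exp (-(q / K)) * Real.exp (q / K) = 1 := by rw [← Real.exp_add]; simp
      have h2 := mul_le_mul_of_nonneg_left h1 (Real.exp_pos (-(q / K))).le
      linarith only [h2, e]
    have hVj : ∀ j < J, ∑ p ∈ II T q K j, be l p ^ 2 ≤ q + C1 := by
      intro j hj
      rw [hII j hj]
      refine (hT j (by rw [Finset.mem_range]; omega)).1.trans ?_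
      rw [div_le_iff₀ (by positivity)]
      have h1 : q / K ≤ q := div_le_self hq0.le (by linarith only [hK3])
      have h2 : (q + C1) * 1 ≤ (q + C1) * Real.pi ^ 2 := mul_le_mul_of_nonneg_left (by linarith only [hpi9]) (by positivity)
      linarith only [h1, h2]
    have h1 := Ab_compl (hh := hh) (r := r) hIP hX1 hT1 (40 * K) hXk hVj hV00
    rw [← hA] at h1
    refine h1.trans ?_
    rw [hrq, hV0]
    apply mul_le_mul_of_nonneg_right hJK (by positivity)
  obtain ⟨err, herr⟩ : ∃ err : ℝ, err = 6 * δ := ⟨_, rfl⟩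
  have hlap : ∀ α : ℕ → ℝ, (∀ j, |α j| ≤ lam + e1) → ∀ b < r, ∀ b' < r,
    |∫ t in A, Real.exp (∑ j ∈ Finset.range J, α j * (fld l (II T q K j) (t + hh b) +
      fld l (II T q K j) (t + hh b'))) ∂(PT T) -
      Real.exp (∑ j ∈ Finset.range J, α j ^ 2 * (vI l (II T q K j) + cI l (II T q K j) (hh b - hh b')))| ≤ err := by
    intro α hα b hb b' hb'
    have h1 := lev_lap (r := r) (K := 32 * (q + K * C1)) (amax := lam + e1) (s := Real.exp 1) hAm hIP hdis hTD hD1
      hD hX1 hMX hB hB00.le hBD hKK hAV hδ0.le (by linarith) (Real.one_le_exp (by norm_num)) (by linarith) α hα hb hb'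
    refine h1.trans ?_
    have g1 : Real.exp (Real.exp 1 * (J * ((lam + e1) * (2 * V0)))) / Real.exp 1 ^ (2 * M + 1) ≤ δ := by
      refine le_trans ?_ h7
      apply div_le_div_of_nonneg_right _ (by positivity)
      apply Real.exp_le_exp.2
      rw [hV0]
      gcongr
    have g2 : 2 * (2 * (M : ℝ) + 1) * Real.exp (32 * (q + K * C1) / 2) * Real.sqrt ((PT T).real Aᶜ) ≤ δ := by
      refine le_trans ?_ h4M
      unfold Er
      gcongr
    rw [herr]
    linarith only [g1, g2, h8]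
  -- the expectations
  have hc0 : ∀ b b' : ℕ, ∀ α : ℕ → ℝ, 0 ≤ ∑ j ∈ Finset.range J, α j ^ 2 * (vI l (II T q K j) + cI l (II T q K j) (hh b - hh b')) :=
    fun b b' α => Finset.sum_nonneg fun j _ => mul_nonneg (sq_nonneg _) (cI_ge _ _ _)
  have hσ2 : σ ^ 2 = 1 := by rcases hσ with h | h <;> rw [h] <;> norm_num
  have hσa : |σ| = 1 := by rcases hσ with h | h <;> rw [h] <;> norm_num
  have hLp : ∀ α : ℕ → ℝ, (∀ j, 0 ≤ α j ∧ α j ≤ lam + e1) → ∀ b < r, ∀ b' < r,
      ∫ t in A, Real.exp (∑ j ∈ Finset.range J, α j * (σ * fld l (II T q K j) (t + hh b) +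
        σ * fld l (II T q K j) (t + hh b'))) ∂(PT T) ≤
      (1 + err) * Real.exp (∑ j ∈ Finset.range J, α j ^ 2 * (vI l (II T q K j) + cI l (II T q K j) (hh b - hh b'))) := by
    intro α hα b hb b' hb'
    have h1 := (abs_le.1 (hlap (fun j => σ * α j) (fun j => by
      rw [abs_mul, hσa, one_mul, abs_of_nonneg (hα j).1]; exact (hα j).2) b hb b' hb')).2
    have e1' : ∀ t, ∑ j ∈ Finset.range J, σ * α j * (fld l (II T q K j) (t + hh b) + fld l (II T q K j) (t + hh b')) =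
        ∑ j ∈ Finset.range J, α j * (σ * fld l (II T q K j) (t + hh b) + σ * fld l (II T q K j) (t + hh b')) :=
      fun t => Finset.sum_congr rfl fun j _ => by ring
    have e2' : ∑ j ∈ Finset.range J, (σ * α j) ^ 2 * (vI l (II T q K j) + cI l (II T q K j) (hh b - hh b')) =
        ∑ j ∈ Finset.range J, α j ^ 2 * (vI l (II T q K j) + cI l (II T q K j) (hh b - hh b')) :=
      Finset.sum_congr rfl fun j _ => by rw [mul_pow, hσ2, one_mul]
    simp only [e1', e2'] at h1
    have h2 := Real.one_le_exp (hc0 b b' α)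
    have h3 : 0 ≤ err := by rw [herr]; positivity
    nlinarith only [h1, h2, h3]
  have hLm : ∀ b < r, (1 - err) * Real.exp (lam ^ 2 / 2 * V) ≤
      ∫ t in A, Real.exp (lam * Sb J (fun j b t => σ * fld l (II T q K j) (t + hh b)) b t) ∂(PT T) := by
    intro b hb
    have h1 := (abs_le.1 (hlap (fun _ => σ * (lam / 2)) (fun j => by
      rw [abs_mul, hσa, one_mul, abs_of_nonneg (by linarith only [hlam0])]; linarith only [hlam0, he]) b hb b hb)).1
    have e1' : ∀ t, ∑ j ∈ Finset.range J, σ * (lam / 2) * (fld l (II T q K j) (t + hh b) + fld l (II T q K j) (t + hh b)) =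
        lam * Sb J (fun j b t => σ * fld l (II T q K j) (t + hh b)) b t := by
      intro t
      unfold Sb
      rw [Finset.mul_sum]
      exact Finset.sum_congr rfl fun j _ => by ring
    have e2' : ∑ j ∈ Finset.range J, (σ * (lam / 2)) ^ 2 * (vI l (II T q K j) + cI l (II T q K j) (hh b - hh b)) =
        lam ^ 2 / 2 * V := by
      rw [hV, Finset.mul_sum]
      refine Finset.sum_congr rfl fun j _ => ?_
      rw [sub_self, cI_zero, mul_pow, hσ2]
      ring
    simp only [e1', e2'] at h1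
    have hV0' : 0 ≤ V := by rw [hV]; exact Finset.sum_nonneg fun j _ => vI_nonneg _ _
    have h2 := Real.one_le_exp (by positivity : 0 ≤ lam ^ 2 / 2 * V)
    have h3 : 0 ≤ err := by rw [herr]; positivity
    nlinarith only [h1, h2, h3]
  -- the far pairs
  obtain ⟨rho, hrho⟩ : ∃ rho : ℝ, rho = Real.exp (-(e1 / (4 * K) * q)) + Real.exp (-q) +
    4 * (κ * q * Real.exp (-(q / K))) * (q / K + C1) := ⟨_, rfl⟩
  have hrho0 : 0 ≤ rho := by rw [hrho]; positivity
  obtain ⟨R, hR⟩ : ∃ R : ℕ → ℝ, R = fun j : ℕ => if j < J then Real.exp (((K : ℝ) - 1 - j) * q / K + e1 / (4 * K) * q) else 1 := ⟨_, rfl⟩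
  have hR1 : ∀ j, 1 ≤ R j := by
    intro j
    rw [hR]
    show 1 ≤ if j < J then _ else _
    split_ifs with hj
    · apply Real.one_le_exp
      have hj' : (j : ℝ) + 3 ≤ K := by exact_mod_cast (by omega : j + 3 ≤ K)
      have : 0 ≤ (K : ℝ) - 1 - j := by linarith only [hj']
      positivity
    · exact le_rfl
  have hfar : ∀ j ∈ Finset.range J, ∀ b < r, ∀ b' < r, R j ≤ |(b : ℝ) - b'| →
      cI l (II T q K j) (hh b - hh b') ≤ rho := by
    intro j hj b hb b' hb' hRb
    have hjJ := Finset.mem_range.1 hj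
    rw [hR] at hRb
    simp only [if_pos hjJ] at hRb
    obtain ⟨-, -, -, g4⟩ := hT j (by rw [Finset.mem_range]; omega)
    rw [hII j hjJ]
    have key : ∀ d : ℕ, (d : ℝ) = |(b : ℝ) - b'| → d ≤ r → cI l (PI T (((K : ℝ) - 1 - j) * q / K)
        (((K : ℝ) - 2 - j) * q / K)) (2 * Real.pi * d / L) ≤ rho := by
      intro d hd hdr
      have hd1 : (1 : ℝ) ≤ d := by
        rw [hd]
        refine le_trans ?_ hRb
        have := hR1 j
        rw [hR] at this
        simp only [if_pos hjJ] at this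
        exact this
      have hd1' : 1 ≤ d := by exact_mod_cast hd1
      refine (g4 d hd1' hdr).trans ?_
      rw [hrho]
      have h5 : Real.exp (((K : ℝ) - 1 - j) * q / K) / d ≤ Real.exp (-(e1 / (4 * K) * q)) := by
        rw [div_le_iff₀ (by linarith only [hd1]), hd]
        have h6 := mul_le_mul_of_nonneg_left hRb (Real.exp_pos (-(e1 / (4 * K) * q))).le
        rw [← Real.exp_add] at h6
        refine le_trans (le_of_eq ?_) h6
        congr 1
        ring
      linarith only [h5]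
    rw [hhh]
    show cI l _ (2 * Real.pi * b / L - 2 * Real.pi * b' / L) ≤ rho
    rcases le_total b' b with h | h
    · have e : 2 * Real.pi * b / L - 2 * Real.pi * b' / L = 2 * Real.pi * ((b - b' : ℕ) : ℝ) / L := by
        rw [Nat.cast_sub h]; ring
      rw [e]
      apply key (b - b')
      · rw [Nat.cast_sub h, abs_of_nonneg]
        have : (b' : ℝ) ≤ b := by exact_mod_cast h
        linarith only [this]
      · omega
    · have e : 2 * Real.pi * b / L - 2 * Real.pi * b' / L = -(2 * Real.pi * ((b' - b : ℕ) : ℝ) / L) := by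
        rw [Nat.cast_sub h]; ring
      rw [e, cI_neg]
      apply key (b' - b)
      · rw [Nat.cast_sub h, abs_of_nonpos]
        · ring
        · have : (b : ℝ) ≤ b' := by exact_mod_cast h
          linarith only [this]
      · omega
  obtain ⟨C, hC⟩ : ∃ C : ℝ, C = ∑ j ∈ Finset.range J, ∑ p ∈ II T q K j, |be l p| := ⟨_, rfl⟩
  have hC0 : 0 ≤ C := by rw [hC]; positivity
  have hXC : ∀ t ∈ A, ∀ j b : ℕ, |σ * fld l (II T q K j) (t + hh b)| ≤ C := by
    intro t _ j b
    rw [abs_mul, hσa, one_mul]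
    by_cases hj : j < J
    · refine (fld_bd _ _ _).trans ?_
      rw [hC]
      exact Finset.single_le_sum (f := fun j => ∑ p ∈ II T q K j, |be l p|)
        (fun j _ => Finset.sum_nonneg fun p _ => abs_nonneg _) (Finset.mem_range.2 hj)
    · have : II T q K j = ∅ := by
        unfold II
        rw [if_neg (by omega)]
      rw [this]
      simp [fld]
      exact hC0
  obtain ⟨u0, hu0⟩ : ∃ u0 : ℝ, u0 = (lam - e1) * (J * vlo) := ⟨_, rfl⟩
  have hln0 : q / 100 ≤ J * vlo := by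
    rw [hJK2, hvlo]
    exact ln0 he1 hq0 hK3 q2
  obtain ⟨m1, hm1⟩ : ∃ m1 : ℝ, m1 = (1 - err) - (1 + err) * (J * Real.exp (e1 ^ 2 / 2 * vhi - e1 * w)) -
      (1 + err) * Real.exp (e1 ^ 2 / 2 * V - e1 * (lam * V - u0)) := ⟨_, rfl⟩
  have hlame : e1 ≤ lam := by
    rw [hlam]
    nlinarith only [heβ, hβ, hpi3]
  have hm10 : 1 - 10 * δ ≤ m1 := by
    have g1 : J * Real.exp (e1 ^ 2 / 2 * vhi - e1 * w) ≤ δ := by
      refine le_trans ?_ q6
      apply mul_le_mul hJK _ (Real.exp_pos _).le hK0.le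
      apply Real.exp_le_exp.2
      rw [hvhi, hw]
      exact ln1 he he1 hq0 hK0 q2
    have g2 : Real.exp (e1 ^ 2 / 2 * V - e1 * (lam * V - u0)) ≤ δ := by
      refine le_trans ?_ q7
      apply Real.exp_le_exp.2
      exact ln2 he hVlo hln0 hq0 hlame hu0
    have g3 : (1 + err) * (J * Real.exp (e1 ^ 2 / 2 * vhi - e1 * w)) ≤ 2 * δ :=
      mul_le_mul (by rw [herr]; linarith only [hδ1]) g1 (by positivity) (by norm_num)
    have g4 : (1 + err) * Real.exp (e1 ^ 2 / 2 * V - e1 * (lam * V - u0)) ≤ 2 * δ :=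
      mul_le_mul (by rw [herr]; linarith only [hδ1]) g2 (Real.exp_pos _).le (by norm_num)
    rw [hm1]
    linarith only [g3, g4, herr]
  have hXm : ∀ j b : ℕ, Measurable fun t => σ * fld l (II T q K j) (t + hh b) := fun j b =>
    ((fld_cont l (II T q K j)).measurable.comp (measurable_id.add_const (hh b))).const_mul σ
  obtain ⟨th1, hth1⟩ : ∃ th1 : ℝ, th1 = lam * w + lam ^ 2 / 2 * vhi := ⟨_, rfl⟩
  have key := secN (P := PT T) (J := J) (r := r) (X := fun j b t => σ * fld l (II T q K j) (t + hh b)) (A := A)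
    (C := C) (v := fun j => vI l (II T q K j)) (vhi := vhi)
    (c := fun j b b' => cI l (II T q K j) (hh b - hh b')) hr1 hXm hAm hC0 hXC hv1
    (fun j b => by simp only [sub_self]; exact cI_zero _ _) (fun j b b' => cI_le _ _ _) R hR1 rho hrho0 hfar
    lam w u0 e1 e1 err V th1 (by rw [herr]; positivity) hw0 hvhi0 hV hlam0.le he.le he.le hlame hth1 hLp hLm
    m1 hm1 δ hδ0.le (by linarith only [hδ1, hm10])
  have hQ : (1 + err) * Real.exp (J * (lam ^ 2 * rho)) * (1 + ∑ m ∈ Finset.range J,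
      Real.exp (th1 * (m + 1)) * (3 * R m) / r) ≤ (1 + 6 * δ) * Real.exp δ * (1 + δ) := by
    have g1 : (J : ℝ) * (lam ^ 2 * rho) ≤ δ := by
      refine le_trans ?_ q4
      have g2 : lam ^ 2 ≤ 40 := by
        have := pow_le_pow_left₀ hlam0.le hlam63 2
        norm_num at this
        linarith only [this]
      calc (J : ℝ) * (lam ^ 2 * rho) ≤ K * (40 * rho) := by gcongr
        _ = 40 * K * rho := by ring
        _ = _ := by rw [hrho]
    have g2 : ∑ m ∈ Finset.range J, Real.exp (th1 * (m + 1)) * (3 * R m) / r ≤ δ := by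
      refine le_trans ?_ q5
      have g3 : ∀ m ∈ Finset.range J, Real.exp (th1 * (m + 1)) * (3 * R m) / r ≤ 3 * Real.exp (-(e1 / (8 * K) * q)) := by
        intro m hm
        rw [hR]
        simp only [if_pos (Finset.mem_range.1 hm)]
        rw [hrq]
        have e : Real.exp (th1 * (m + 1)) * (3 * Real.exp (((K : ℝ) - 1 - m) * q / K + e1 / (4 * K) * q)) / Real.exp q =
            3 * Real.exp (th1 * (m + 1) + (((K : ℝ) - 1 - m) * q / K + e1 / (4 * K) * q) - q) := by
          rw [Real.exp_sub, Real.exp_add (th1 * (m + 1))]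
          ring
        rw [e]
        apply mul_le_mul_of_nonneg_left _ (by norm_num)
        apply Real.exp_le_exp.2
        refine le_trans ?_ (ln3 he he1 hq0 hK0 hC1 q2 (Nat.cast_nonneg m))
        rw [← hw, ← hvhi, hth1]
        have g9 : lam * w + lam ^ 2 / 2 * vhi ≤
            2 * Real.pi * (1 - e1) * w + (2 * Real.pi * (1 - e1)) ^ 2 / 2 * vhi := by gcongr
        have g10 : (0 : ℝ) ≤ (m : ℝ) + 1 := by positivity
        have g11 := mul_le_mul_of_nonneg_right g9 g10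
        linarith only [g11]
      refine (Finset.sum_le_sum g3).trans ?_
      rw [Finset.sum_const, Finset.card_range, nsmul_eq_mul]
      calc (J : ℝ) * (3 * Real.exp (-(e1 / (8 * K) * q))) ≤ K * (3 * Real.exp (-(e1 / (8 * K) * q))) := by gcongr
        _ = _ := by ring
    rw [← herr]
    have g3 : 0 ≤ ∑ m ∈ Finset.range J, Real.exp (th1 * (m + 1)) * (3 * R m) / r :=
      Finset.sum_nonneg fun m _ => by have := hR1 m; positivity
    have g4 : 0 ≤ err := by rw [herr]; positivity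
    gcongr
  have hQ2 : (1 + err) * Real.exp (J * (lam ^ 2 * rho)) * (1 + ∑ m ∈ Finset.range J,
      Real.exp (th1 * (m + 1)) * (3 * R m) / r) ≤ (1 + 6 * (2 * δ)) * Real.exp (2 * δ) * (1 + 2 * δ) := by
    refine hQ.trans ?_
    have h1 : Real.exp δ ≤ Real.exp (2 * δ) := Real.exp_le_exp.2 (by linarith)
    gcongr <;> linarith
  have hfin := ln5 (δ := 2 * δ) (by linarith) (by linarith only [hδe, he1]) (by linarith only [hm10, hδ0] :
    1 - 10 * (2 * δ) ≤ m1 - δ) measureReal_nonneg hQ2 key (by linarith only [hδη] : 32 * (2 * δ) ≤ η)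
  refine hfin.trans ?_
  apply measureReal_mono _ (measure_ne_top _ _)
  intro t ht
  rw [Set.mem_ofPred_eq] at ht ⊢
  have e1' : ∀ b : ℕ, Sb J (fun j b t => σ * fld l (II T q K j) (t + hh b)) b t =
      σ * fld l (PI T (((K : ℝ) - 1) * q / K) (q / K)) (t + 2 * Real.pi * b / L) := by
    intro b
    unfold Sb
    rw [← II_sum hT1 hq0.le hK, Finset.mul_sum, hJ, hhh]
  simp only [e1'] at ht
  have hu1 : (β - 4 * e1) / Real.pi * q ≤ u0 := by
    rw [hu0, hlam, hvlo, hJK2]
    exact ln4N heβ he he1 (by linarith) hq0 hK3 hK2 q2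
  have hcard : (((Finset.range r).filter fun b : ℕ => u0 < σ * fld l (PI T (((K : ℝ) - 1) * q / K) (q / K))
      (t + 2 * Real.pi * b / L)).card : ℝ) ≤ (((Finset.range r).filter fun b : ℕ => (β - 4 * e1) / Real.pi * q <
      σ * fld l (PI T (((K : ℝ) - 1) * q / K) (q / K)) (t + 2 * Real.pi * b / L)).card : ℝ) := by
    exact_mod_cast Finset.card_le_card (Finset.monotone_filter_right _ fun b _ hb => lt_of_le_of_lt hu1 hb)
  refine le_trans ?_ hcard
  -- the size
  have hJw : lam * (J * w) ≤ e1 * q / 2 := by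
    have h1 : (J : ℝ) * w ≤ K * w := mul_le_mul_of_nonneg_right hJK hw0
    have h2 : (K : ℝ) * w = e1 * q / (4 * Real.pi) := by rw [hw]; field_simp
    have h3 : lam * (J * w) ≤ 2 * Real.pi * (e1 * q / (4 * Real.pi)) := by
      rw [← h2]
      apply mul_le_mul _ h1 (by positivity) (by positivity)
      rw [hlam]
      have : 2 * Real.pi * β ≤ 2 * Real.pi * 1 := mul_le_mul_of_nonneg_left (by linarith) (by positivity)
      linarith only [this]
    have h4 : 2 * Real.pi * (e1 * q / (4 * Real.pi)) = e1 * q / 2 := by field_simp; norm_num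
    linarith only [h3, h4]
  have hlV : lam ^ 2 / 2 * V ≤ β ^ 2 * q + e1 * q / 8 := by
    have h1 : V ≤ K * vhi := hVhi.trans (mul_le_mul_of_nonneg_right hJK hvhi0)
    have h2 : lam ^ 2 / 2 * (K * vhi) = β ^ 2 * (q + K * C1) := by
      rw [hlam, hvhi]; field_simp
    have h3 : lam ^ 2 / 2 * V ≤ lam ^ 2 / 2 * (K * vhi) := mul_le_mul_of_nonneg_left h1 (by positivity)
    have h4 : β ^ 2 ≤ 1 := by nlinarith only [hβ, hβ1, he]
    have h5 : β ^ 2 * (K * C1) ≤ 1 * (K * C1) := mul_le_mul_of_nonneg_right h4 (by positivity)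
    have h6 : β ^ 2 * (q + K * C1) = β ^ 2 * q + β ^ 2 * (K * C1) := by ring
    linarith only [h2, h3, h5, h6, q2]
  have hlδ : Real.log (1 / δ) ≤ e1 * q / 4 := by
    rw [div_le_iff₀ he] at hqδ
    linarith only [hqδ]
  have hδe' : Real.exp (-(e1 * q / 4)) ≤ δ := by
    rw [one_div, Real.log_inv] at hlδ
    calc Real.exp (-(e1 * q / 4)) ≤ Real.exp (Real.log δ) := Real.exp_le_exp.2 (by linarith only [hlδ])
      _ = δ := Real.exp_log hδ0
  obtain ⟨cd, hcd⟩ : ∃ cd : ℝ, cd = (((Finset.range r).filter fun b : ℕ => u0 < σ * fld l (PI T (((K : ℝ) - 1) * q / K) (q / K))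
      (t + 2 * Real.pi * b / L)).card : ℝ) := ⟨_, rfl⟩
  have hcd0 : 0 ≤ cd := by rw [hcd]; exact Nat.cast_nonneg _
  rw [← hcd] at ht ⊢
  have g1 : Real.exp (-(e1 * q / 4)) * Real.exp q ≤ Real.exp (β ^ 2 * q + e1 * q / 8 + e1 * q / 2) * cd := by
    calc Real.exp (-(e1 * q / 4)) * Real.exp q ≤ δ * r := by
          rw [hrq]
          exact mul_le_mul_of_nonneg_right hδe' (Real.exp_pos _).le
      _ ≤ _ := ht
      _ ≤ _ := mul_le_mul_of_nonneg_right (Real.exp_le_exp.2 (by linarith only [hJw, hlV])) hcd0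
  have g2 : Real.exp ((1 - β ^ 2 - 2 * e1) * q) * Real.exp (β ^ 2 * q + e1 * q / 8 + e1 * q / 2) ≤
      Real.exp (-(e1 * q / 4)) * Real.exp q := by
    rw [← Real.exp_add, ← Real.exp_add]
    apply Real.exp_le_exp.2
    have : 0 < e1 * q := by positivity
    linarith only [this]
  have g3 := Real.exp_pos (β ^ 2 * q + e1 * q / 8 + e1 * q / 2)
  have g4 : Real.exp ((1 - β ^ 2 - 2 * e1) * q) * Real.exp (β ^ 2 * q + e1 * q / 8 + e1 * q / 2) ≤
      cd * Real.exp (β ^ 2 * q + e1 * q / 8 + e1 * q / 2) := by linarith only [g1, g2]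
  exact le_of_mul_le_mul_right g4 g3

end

end Pool.Agent.U403.Thick
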