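import Pool.Agent.U403.Max.Low

/-! # Thick points: the truncated second moment method, counting -/

set_option autoImplicit false

open Filter Topology MeasureTheory Finset
open Pool.Agent.U403.Max

namespace Pool.Agent.U403.Thick

noncomputable section

variable {Ω : Type*} [MeasurableSpace Ω]
variable {P : Measure Ω} [IsProbabilityMeasure P] {J r : ℕ} {X : ℕ → ℕ → Ω → ℝ}
  {A : Set Ω} {C : ℝ} {v : ℕ → ℝ} {vhi : ℝ} {c : ℕ → ℕ → ℕ → ℝ}

/-- **the truncated second moment method, counting** -/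
theorem secN (hr : 1 ≤ r) (hX : ∀ j b, Measurable (X j b)) (hA : MeasurableSet A) (hCp : 0 ≤ C)
    (hC : ∀ ω ∈ A, ∀ j b, |X j b ω| ≤ C) (hv : ∀ j ∈ range J, v j ≤ vhi)
    (hcd : ∀ j b, c j b b = v j) (hcv : ∀ j b b', c j b b' ≤ v j)
    (R : ℕ → ℝ) (hR : ∀ j, 1 ≤ R j) (rho : ℝ) (hrho : 0 ≤ rho)
    (hfar : ∀ j ∈ range J, ∀ b < r, ∀ b' < r, R j ≤ |(b : ℝ) - b'| → c j b b' ≤ rho)
    (lam w u th mu δ V th1 : ℝ) (hδ : 0 ≤ δ) (hw : 0 ≤ w) (hv0 : 0 ≤ vhi)
    (hV : V = ∑ j ∈ range J, v j) (hlam : 0 ≤ lam) (hth : 0 ≤ th) (hmu : 0 ≤ mu) (hmul : mu ≤ lam)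
    (hth1 : th1 = lam * w + lam ^ 2 / 2 * vhi)
    (Lp : ∀ α : ℕ → ℝ, (∀ j, 0 ≤ α j ∧ α j ≤ lam + th) → ∀ b < r, ∀ b' < r,
      ∫ ω in A, Real.exp (∑ j ∈ range J, α j * (X j b ω + X j b' ω)) ∂P ≤
        (1 + δ) * Real.exp (∑ j ∈ range J, α j ^ 2 * (v j + c j b b')))
    (Lm : ∀ b < r, (1 - δ) * Real.exp (lam ^ 2 / 2 * V) ≤
      ∫ ω in A, Real.exp (lam * Sb J X b ω) ∂P)
    (m1 : ℝ) (hm1 : m1 = (1 - δ) - (1 + δ) * (J * Real.exp (th ^ 2 / 2 * vhi - th * w)) -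
      (1 + δ) * Real.exp (mu ^ 2 / 2 * V - mu * (lam * V - u))) (vt : ℝ) (hvt0 : 0 ≤ vt) (hvt : vt ≤ m1) :
    (m1 - vt) ^ 2 ≤ (1 + δ) * Real.exp (J * (lam ^ 2 * rho)) * (1 + ∑ m ∈ range J,
        Real.exp (th1 * (m + 1)) * (3 * R m) / r) * P.real {ω | vt * r ≤ Real.exp (lam ^ 2 / 2 * V + lam * (J * w)) *
          (((range r).filter fun b => u < Sb J X b ω).card : ℝ)} := by
  classical
  have hr0 : (0 : ℝ) < r := by exact_mod_cast hr
  obtain ⟨Ψ, hΨ⟩ : ∃ Ψ : Ω → ℝ, Ψ = fun ω => ∑ b ∈ range r, Ph J X A v lam w u b ω := ⟨_, rfl⟩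
  have hPi : ∀ b, Integrable (Ph J X A v lam w u b) P := by
    intro b
    refine Integrable.of_bound (Ph_meas hX hA v lam w u b).aestronglyMeasurable
      (Real.exp (lam * (J * C) - lam ^ 2 / 2 * ∑ j ∈ range J, v j)) (ae_of_all _ fun ω => ?_)
    rw [Real.norm_eq_abs, abs_of_nonneg (Ph_nonneg _ _ _ _ _ _ _ _ _)]
    exact Ph_le v hlam w u hC b ω
  have hPPi : ∀ b b', Integrable (fun ω => Ph J X A v lam w u b ω * Ph J X A v lam w u b' ω) P := by
    intro b b'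
    refine Integrable.of_bound ((Ph_meas hX hA v lam w u b).mul (Ph_meas hX hA v lam w u b')).aestronglyMeasurable
      (Real.exp (lam * (J * C) - lam ^ 2 / 2 * ∑ j ∈ range J, v j) *
        Real.exp (lam * (J * C) - lam ^ 2 / 2 * ∑ j ∈ range J, v j)) (ae_of_all _ fun ω => ?_)
    rw [norm_mul, Real.norm_eq_abs, abs_of_nonneg (Ph_nonneg _ _ _ _ _ _ _ _ _), Real.norm_eq_abs,
      abs_of_nonneg (Ph_nonneg _ _ _ _ _ _ _ _ _)]
    exact mul_le_mul (Ph_le v hlam w u hC b ω) (Ph_le v hlam w u hC b' ω) (Ph_nonneg _ _ _ _ _ _ _ _ _) (Real.exp_pos _).le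
  have hI1 : Integrable Ψ P := by rw [hΨ]; exact integrable_finsetSum _ fun b _ => hPi b
  have hsq : ∀ ω, Ψ ω ^ 2 = ∑ b ∈ range r, ∑ b' ∈ range r, Ph J X A v lam w u b ω * Ph J X A v lam w u b' ω := by
    intro ω
    rw [hΨ, sq]
    simp only
    rw [sum_mul_sum]
  have hI2 : Integrable (fun ω => Ψ ω ^ 2) P := by
    simp only [hsq]
    exact integrable_finsetSum _ fun b _ => integrable_finsetSum _ fun b' _ => hPPi b b'
  have ha : r * m1 ≤ ∫ ω, Ψ ω ∂P := by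
    rw [hΨ]
    simp only
    rw [integral_finsetSum _ fun b _ => hPi b]
    have h1 : ∀ b ∈ range r, m1 ≤ ∫ ω, Ph J X A v lam w u b ω ∂P := by
      intro b hb
      rw [hm1]
      exact first_mom hX hA hCp hC hv hcd lam w u th mu δ V hδ hV hlam hth hmu hmul Lp Lm (mem_range.1 hb)
    refine le_trans (le_of_eq ?_) (sum_le_sum h1)
    rw [sum_const, card_range, nsmul_eq_mul]
  obtain ⟨Q, hQ⟩ : ∃ Q : ℝ, Q = (1 + δ) * Real.exp (J * (lam ^ 2 * rho)) := ⟨_, rfl⟩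
  have hQ0 : 0 ≤ Q := by rw [hQ]; exact mul_nonneg (by linarith) (Real.exp_pos _).le
  have hB : ∫ ω, Ψ ω ^ 2 ∂P ≤ Q * (r ^ 2 * (1 + ∑ m ∈ range J, Real.exp (th1 * (m + 1)) * (3 * R m) / r)) := by
    simp only [hsq]
    rw [integral_finsetSum _ fun b _ => integrable_finsetSum _ fun b' _ => hPPi b b']
    have h1 : ∀ b ∈ range r, ∫ ω, ∑ b' ∈ range r, Ph J X A v lam w u b ω * Ph J X A v lam w u b' ω ∂P ≤
        Q * (r * (1 + ∑ m ∈ range J, Real.exp (th1 * (m + 1)) * (3 * R m) / r)) := by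
      intro b hb
      rw [integral_finsetSum _ fun b' _ => hPPi b b']
      have h2 : ∀ b' ∈ range r, ∫ ω, Ph J X A v lam w u b ω * Ph J X A v lam w u b' ω ∂P ≤
          Q * (1 + ∑ m ∈ range J, if |(b : ℝ) - b'| < R m then Real.exp (th1 * (m + 1)) else 0) := by
        intro b' hb'
        rw [hQ]
        exact second_mom hX hA hC hv hcv R rho hrho hfar lam w u th δ V th1 hδ hw hv0 hV hlam hth hth1 Lp
          (mem_range.1 hb) (mem_range.1 hb')
      refine (sum_le_sum h2).trans ?_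
      rw [← mul_sum]
      apply mul_le_mul_of_nonneg_left _ hQ0
      rw [sum_add_distrib, sum_const, card_range, nsmul_eq_mul, mul_add, sum_comm]
      apply add_le_add le_rfl
      rw [mul_sum]
      apply sum_le_sum
      intro m _
      rw [← sum_filter, sum_const, nsmul_eq_mul]
      have h3 := near_count r (by linarith [hR m] : 0 ≤ R m) b
      have h4 : (r : ℝ) * (Real.exp (th1 * (m + 1)) * (3 * R m) / r) = (3 * R m) * Real.exp (th1 * (m + 1)) := by
        field_simp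
      rw [h4]
      apply mul_le_mul_of_nonneg_right _ (Real.exp_pos _).le
      linarith [hR m]
    refine (sum_le_sum h1).trans (le_of_eq ?_)
    rw [sum_const, card_range, nsmul_eq_mul]
    ring
  -- the event
  have hΨ0 : ∀ ω, 0 ≤ Ψ ω := fun ω => by
    rw [hΨ]
    exact sum_nonneg fun b _ => Ph_nonneg _ _ _ _ _ _ _ _ _
  have hΨm : Measurable Ψ := by
    rw [hΨ]
    exact Finset.measurable_fun_sum _ fun b _ => Ph_meas hX hA v lam w u b
  obtain ⟨E, hE⟩ : ∃ E : Set Ω, E = {ω | vt * r ≤ Ψ ω} := ⟨_, rfl⟩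
  have hEm : MeasurableSet E := by rw [hE]; exact measurableSet_le measurable_const hΨm
  have hsub : E ⊆ {ω | vt * r ≤ Real.exp (lam ^ 2 / 2 * V + lam * (J * w)) *
      (((range r).filter fun b => u < Sb J X b ω).card : ℝ)} := by
    intro ω hω
    rw [hE, Set.mem_ofPred_eq] at hω
    rw [Set.mem_ofPred_eq]
    refine hω.trans ?_
    rw [hΨ]
    simp only
    rw [card_filter]
    push_cast
    rw [mul_sum]
    refine sum_le_sum fun b _ => ?_
    unfold Ph
    by_cases h : ω ∈ Gb J X A v lam w u b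
    · rw [Set.indicator_of_mem h, if_pos h.2.2, mul_one]
      apply Real.exp_le_exp.2
      have h1 : Sb J X b ω ≤ lam * V + J * w := by
        unfold Sb
        refine (sum_le_sum h.2.1).trans (le_of_eq ?_)
        rw [sum_add_distrib, ← mul_sum, ← hV, sum_const, card_range, nsmul_eq_mul]
      have h2 := mul_le_mul_of_nonneg_left h1 hlam
      rw [← hV]
      linarith
    · rw [Set.indicator_of_notMem h]
      split_ifs
      · rw [mul_one]; exact (Real.exp_pos _).le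
      · rw [mul_zero]
  have hcs := cs_ind (P := P) (f := Ψ) hEm hI1 hI2
  have habs : ∫ ω in E, |Ψ ω| ∂P = ∫ ω in E, Ψ ω ∂P := by
    simp only [abs_of_nonneg (hΨ0 _)]
  rw [habs] at hcs
  have hsplit : ∫ ω, Ψ ω ∂P ≤ ∫ ω in E, Ψ ω ∂P + vt * r := by
    rw [← integral_add_compl hEm hI1]
    apply add_le_add le_rfl
    calc ∫ ω in Eᶜ, Ψ ω ∂P ≤ ∫ _ in Eᶜ, vt * r ∂P := by
          apply setIntegral_mono_on hI1.integrableOn (integrableOn_const (measure_ne_top _ _)) hEm.compl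
          intro ω hω
          rw [hE, Set.mem_compl_iff, Set.mem_ofPred_eq, not_le] at hω
          exact hω.le
      _ = P.real Eᶜ * (vt * r) := by rw [setIntegral_const, smul_eq_mul]
      _ ≤ 1 * (vt * r) := mul_le_mul_of_nonneg_right measureReal_le_one (by positivity)
      _ = vt * r := one_mul _
  have h5 : r * (m1 - vt) ≤ ∫ ω in E, Ψ ω ∂P := by
    have : (r : ℝ) * (m1 - vt) = r * m1 - vt * r := by ring
    linarith
  have h6 : (r * (m1 - vt)) ^ 2 ≤ (∫ ω in E, Ψ ω ∂P) ^ 2 :=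
    pow_le_pow_left₀ (mul_nonneg hr0.le (by linarith)) h5 2
  have hP := measureReal_mono hsub (measure_ne_top P _)
  have hP0 : 0 ≤ P.real E := measureReal_nonneg
  have hs0 : 0 ≤ Q * (r ^ 2 * (1 + ∑ m ∈ range J, Real.exp (th1 * (m + 1)) * (3 * R m) / r)) := by
    have : 0 ≤ ∑ m ∈ range J, Real.exp (th1 * (m + 1)) * (3 * R m) / r :=
      sum_nonneg fun m _ => by have := hR m; positivity
    positivity
  have h7 : (r : ℝ) ^ 2 * (m1 - vt) ^ 2 ≤ r ^ 2 * (Q * (1 + ∑ m ∈ range J,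
      Real.exp (th1 * (m + 1)) * (3 * R m) / r) * P.real {ω | vt * r ≤ Real.exp (lam ^ 2 / 2 * V + lam * (J * w)) *
        (((range r).filter fun b => u < Sb J X b ω).card : ℝ)}) := by
    calc (r : ℝ) ^ 2 * (m1 - vt) ^ 2 = (r * (m1 - vt)) ^ 2 := by ring
      _ ≤ (∫ ω, Ψ ω ^ 2 ∂P) * P.real E := h6.trans hcs
      _ ≤ (Q * (r ^ 2 * (1 + ∑ m ∈ range J, Real.exp (th1 * (m + 1)) * (3 * R m) / r))) * P.real E :=
          mul_le_mul_of_nonneg_right hB hP0
      _ ≤ (Q * (r ^ 2 * (1 + ∑ m ∈ range J, Real.exp (th1 * (m + 1)) * (3 * R m) / r))) *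
          P.real {ω | vt * r ≤ Real.exp (lam ^ 2 / 2 * V + lam * (J * w)) *
            (((range r).filter fun b => u < Sb J X b ω).card : ℝ)} := mul_le_mul_of_nonneg_left hP hs0
      _ = _ := by ring
  have h9 := le_of_mul_le_mul_left h7 (by positivity)
  rw [← hQ]
  exact h9

end

end Pool.Agent.U403.Thick
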