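import Pool.Agent.U403.Ldp.Vsb
import Pool.Agent.U403.Max.Comb

/-! # Thick points: tails of the main field and the comparison -/

set_option autoImplicit false

open Filter Topology MeasureTheory Set
open Pool.Agent.Y743.CL
open Pool.Agent.R320.JL
open SP (RHs)
open SG (NZ)
open Pool.Agent.U403.Max
open Pool.Agent.U403.Ldp

namespace Pool.Agent.U403.Thick

noncomputable section

/-- the main field -/
def WW (κ : ℝ) (K r : ℕ) (T s : ℝ) : ℝ :=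
  fld (Real.log T / (κ * Real.log r)) (PI T (((K : ℝ) - 1) * Real.log r / K) (Real.log r / K)) s

/-- **the upper tail of the main field at one point** -/
theorem upN (κ : ℝ) (hκ : 0 < κ) (K : ℕ) (hK : 3 ≤ K) (α ε : ℝ) (hα : 0 < α) (hε : 0 < ε) :
    ∀ᶠ r : ℕ in atTop, ∀ᶠ T : ℝ in atTop, ∀ h : ℝ,
      (PT T).real {t | α * Real.log r ≤ |WW κ K r T (t + h)|} ≤
        Real.exp (-((Real.pi ^ 2 * α ^ 2 - ε) * Real.log r)) := by
  obtain ⟨C2, hC2, hvs⟩ := sum_be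
  have hpi3 := Real.pi_gt_three
  have hpi := Real.pi_pos
  have hK0 : 0 < K := by omega
  have hKr : (3 : ℝ) ≤ K := by exact_mod_cast hK
  obtain ⟨C3, hC3⟩ : ∃ C3 : ℝ, C3 = Real.pi ^ 2 * α ^ 2 * C2 := ⟨_, rfl⟩
  have hC30 : 0 ≤ C3 := by rw [hC3]; positivity
  have e1 := ev_small hK0 (4 * (Real.pi ^ 2 * α ^ 2)) 0 1 (show (0 : ℝ) < 1 by norm_num)
  have e2 := ev_pow ε 0 hε 1 (17 * Real.exp 1 * Real.exp (1 + C3) * (Real.pi ^ 2 * α ^ 2)) (show (0 : ℝ) < 1 by norm_num)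
  filter_upwards [logr_top.eventually e1, logr_top.eventually e2, logr_top.eventually_ge_atTop 1,
    logr_top.eventually_ge_atTop ((2 + C3) / (Real.pi ^ 2 * α ^ 2)), eventually_ge_atTop 1] with r h1 h2 h3 h4 hr1
  obtain ⟨q, hq⟩ : ∃ q : ℝ, q = Real.log r := ⟨_, rfl⟩
  unfold WW
  rw [← hq] at h1 h2 h3 h4 ⊢
  have hq0 : 0 < q := by linarith
  simp only [add_zero, pow_one] at h1 h2
  have hqq : q / K ≤ ((K : ℝ) - 1) * q / K := by
    apply div_le_div_of_nonneg_right _ (by linarith)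
    exact le_mul_of_one_le_left hq0.le (by linarith)
  filter_upwards [hvs (((K : ℝ) - 1) * q / K) (q / K) hqq, eventually_gt_atTop 1] with T hT hT1' h
  have hT1 : 1 ≤ T := hT1'.le
  obtain ⟨l, hl⟩ : ∃ l : ℝ, l = Real.log T / (κ * q) := ⟨_, rfl⟩
  have hl0 : 0 < l := by
    rw [hl]
    have := Real.log_pos hT1'
    positivity
  obtain ⟨I, hI⟩ : ∃ I : Finset ℕ, I = PI T (((K : ℝ) - 1) * q / K) (q / K) := ⟨_, rfl⟩
  have hVu := hT l hl0
  rw [← hI] at hVu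
  rw [← hl, ← hI]
  obtain ⟨X, hX⟩ : ∃ X : ℕ, X = XK (Real.exp (-(q / K))) T := ⟨_, rfl⟩
  have hX1 : 1 ≤ X := by
    rw [hX]
    unfold XK
    apply Nat.le_floor
    rw [Nat.cast_one]
    exact Real.one_le_rpow hT1 (Real.exp_pos _).le
  have hIX : I ⊆ Pr X := by rw [hI, hX]; exact PI_sub hT1 le_rfl
  obtain ⟨V, hV⟩ : ∃ V : ℝ, V = (q + C2) / Real.pi ^ 2 := ⟨_, rfl⟩
  have hV0 : 0 < V := by rw [hV]; positivity
  have hVS : ∑ p ∈ I, be l p ^ 2 ≤ V := by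
    refine hVu.trans ?_
    rw [hV]
    apply div_le_div_of_nonneg_right _ (by positivity)
    have h5 : ((K : ℝ) - 1) * q / K ≤ q := by
      rw [div_le_iff₀ (by linarith)]
      nlinarith
    have h6 : 0 ≤ q / K := by positivity
    linarith
  obtain ⟨y, hy⟩ : ∃ y : ℝ, y = α * q := ⟨_, rfl⟩
  have hy0 : 0 < y := by rw [hy]; positivity
  -- the quotient
  have hlow : Real.pi ^ 2 * α ^ 2 * q - C3 ≤ y ^ 2 / V := by
    rw [le_div_iff₀ hV0, hV, hy, hC3]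
    have e : (Real.pi ^ 2 * α ^ 2 * q - Real.pi ^ 2 * α ^ 2 * C2) * ((q + C2) / Real.pi ^ 2) =
        (α * q) ^ 2 - α ^ 2 * C2 ^ 2 := by
      field_simp
      ring
    rw [e]
    have : 0 ≤ α ^ 2 * C2 ^ 2 := by positivity
    linarith
  have hupp : y ^ 2 / V ≤ Real.pi ^ 2 * α ^ 2 * q := by
    rw [div_le_iff₀ hV0, hV, hy]
    have e : Real.pi ^ 2 * α ^ 2 * q * ((q + C2) / Real.pi ^ 2) = (α * q) ^ 2 + α ^ 2 * q * C2 := by
      field_simp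
    rw [e]
    have : 0 ≤ α ^ 2 * q * C2 := by positivity
    linarith
  obtain ⟨k, hk⟩ : ∃ k : ℕ, k = ⌊y ^ 2 / V⌋₊ := ⟨_, rfl⟩
  have hk1 : (k : ℝ) ≤ y ^ 2 / V := by rw [hk]; exact Nat.floor_le (by positivity)
  have hk2 : y ^ 2 / V - 1 ≤ k := by
    have := Nat.lt_floor_add_one (y ^ 2 / V)
    rw [← hk] at this
    linarith
  have hk3 : 1 ≤ k := by
    have h5 : (2 + C3) ≤ Real.pi ^ 2 * α ^ 2 * q := by
      rw [div_le_iff₀ (by positivity)] at h4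
      linarith
    have : (0 : ℝ) < k := by linarith
    exact_mod_cast this
  have hkV : (k : ℝ) * V ≤ 1 * y ^ 2 := by
    rw [le_div_iff₀ hV0] at hk1
    linarith
  have hXT : ((X ^ (k + k) : ℕ) : ℝ) ≤ Real.sqrt T := by
    rw [hX]
    apply XK_pow hT1
    push_cast
    have h5 : 4 * (Real.pi ^ 2 * α ^ 2) * (q * Real.exp (-(q / K))) ≤ 1 := h1
    have h6 : (k : ℝ) ≤ Real.pi ^ 2 * α ^ 2 * q := hk1.trans hupp
    have h7 := mul_le_mul_of_nonneg_left h6 (Real.exp_pos (-(q / K))).le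
    nlinarith
  rw [← hy]
  have hPT := PT_univ (show (0 : ℝ) < T by linarith)
  refine (fld_tail l hIX hX1 T h V y hT1 k hXT hVS hy0).trans ?_
  have h8 := fact_ratio2 hk3 hV0.le hy0 hkV
  have h9 : (1 / Real.exp 1) ^ k ≤ Real.exp (1 + C3 - Real.pi ^ 2 * α ^ 2 * q) := by
    rw [one_div, ← Real.exp_neg, ← Real.exp_nat_mul]
    apply Real.exp_le_exp.2
    linarith
  have h10 : (k : ℝ) ≤ Real.pi ^ 2 * α ^ 2 * q := hk1.trans hupp
  calc 17 * ((k.factorial : ℝ) * V ^ k) / y ^ (2 * k) = 17 * ((k.factorial : ℝ) * V ^ k / y ^ (2 * k)) := by ring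
    _ ≤ 17 * (Real.exp 1 * k * (1 / Real.exp 1) ^ k) := by
        gcongr
    _ ≤ 17 * (Real.exp 1 * (Real.pi ^ 2 * α ^ 2 * q) * Real.exp (1 + C3 - Real.pi ^ 2 * α ^ 2 * q)) := by
        gcongr
    _ = (17 * Real.exp 1 * Real.exp (1 + C3) * (Real.pi ^ 2 * α ^ 2) * (q * Real.exp (-(ε * q)))) *
        Real.exp (-((Real.pi ^ 2 * α ^ 2 - ε) * q)) := by
        have e5 : Real.exp (1 + C3 - Real.pi ^ 2 * α ^ 2 * q) =
            Real.exp (1 + C3) * (Real.exp (-(ε * q)) * Real.exp (-((Real.pi ^ 2 * α ^ 2 - ε) * q))) := by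
          rw [← Real.exp_add, ← Real.exp_add]
          congr 1
          ring
        rw [e5]
        ring
    _ ≤ 1 * Real.exp (-((Real.pi ^ 2 * α ^ 2 - ε) * q)) := by
        gcongr
    _ = _ := one_mul _

/-- **comparison of all the counts with the main field** -/
theorem devW (hRH : RHs) (e1 : ℝ) (he0 : 0 < e1) : ∃ κ : ℝ, 0 < κ ∧ ∀ K : ℕ, 3 ≤ K → 2 / e1 ^ 2 ≤ K →
    ∀ η : ℝ, 0 < η → ∀ᶠ r : ℕ in atTop, ∀ᶠ T : ℝ in atTop,
    (PT T).real {t | ∃ b < 4 * r, 1 ≤ b ∧ 7 * e1 * Real.log r ≤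
      |YY T b t - WW κ K r T (t + 2 * Real.pi * b / Real.log T)|} ≤ η := by
  obtain ⟨κ, hκ0, hκ1, herr⟩ := errT hRH e1 he0
  refine ⟨κ, hκ0, fun K hK3 hKe η hη => ?_⟩
  have hK3' : (3 : ℝ) ≤ K := by exact_mod_cast hK3
  have hK0 : (0 : ℝ) < K := by linarith
  have ev1 : ∀ᶠ q : ℝ in atTop, Real.log (4 * q) ≤ q / K := by
    have h2 := Real.isLittleO_log_id_atTop.bound (c := 1 / (8 * K)) (by positivity)
    have h3 : Tendsto (fun q : ℝ => 4 * q) atTop atTop := tendsto_id.const_mul_atTop (by norm_num)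
    filter_upwards [h3.eventually h2, eventually_ge_atTop 1] with q hq hq1
    rw [id, Real.norm_of_nonneg (Real.log_nonneg (by linarith)), Real.norm_of_nonneg (by linarith)] at hq
    refine hq.trans ?_
    have : 1 / (8 * (K : ℝ)) * (4 * q) = q / K / 2 := by field_simp; norm_num
    rw [this]
    have : 0 ≤ q / K := by positivity
    linarith
  filter_upwards [herr (η / 6) (by positivity), up e1 he0 κ hκ0 (by linarith) K hK3 hKe (η / 6) (by positivity),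
    logr_top.eventually ev1, logr_top.eventually_ge_atTop 1, eventually_ge_atTop 1] with r r1 r3 r4 r6 r7
  filter_upwards [r1, r3, eventually_ge_atTop 1] with T t1 t3 hT1
  have hT0' : 0 < T := by linarith
  haveI := PT_univ hT0'
  obtain ⟨q, hq⟩ : ∃ q : ℝ, q = Real.log r := ⟨_, rfl⟩
  obtain ⟨-, u2, u3, u4, u5, u6⟩ := t3
  unfold WW
  rw [← hq] at u2 u3 u4 u5 u6 r4 r6 t1 ⊢
  obtain ⟨l, hl⟩ : ∃ l : ℝ, l = Real.log T / (κ * q) := ⟨_, rfl⟩
  rw [← hl] at u2 u3 u4 u5 u6 t1 ⊢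
  have hq0 : 0 < q := by linarith
  have hκq : 0 < κ * q := by positivity
  have hlk : Real.log (κ * q) ≤ Real.log (4 * q) := Real.log_le_log hκq (by nlinarith)
  have hqK : q / K ≤ q := div_le_self hq0.le (by linarith)
  have h4q : Real.log (4 * q) ≤ q := r4.trans hqK
  obtain ⟨S2, hS2⟩ : ∃ S2 : Set ℝ, S2 = {t | ∃ b < 4 * r, e1 * q ≤
    |fld l (PI T q (((K : ℝ) - 1) * q / K)) (t + 2 * Real.pi * b / Real.log T)|} := ⟨_, rfl⟩
  obtain ⟨S3, hS3⟩ : ∃ S3 : Set ℝ, S3 = {t | ∃ b < 4 * r, e1 * q ≤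
    |fld l (PI T (q / K) (Real.log (4 * q))) (t + 2 * Real.pi * b / Real.log T)|} := ⟨_, rfl⟩
  obtain ⟨S4, hS4⟩ : ∃ S4 : Set ℝ, S4 = {t | ∃ b < 4 * r, e1 * q ≤
    |fld l (PI T (Real.log (4 * q)) (Real.log (κ * q))) (t + 2 * Real.pi * b / Real.log T)|} := ⟨_, rfl⟩
  obtain ⟨S5, hS5⟩ : ∃ S5 : Set ℝ, S5 = {t | ∃ b < 4 * r, e1 * q ≤
    |fld l (Pr (XK (Real.exp (-q)) T)) (t + 2 * Real.pi * b / Real.log T) -
      fld l (Pr (XK (Real.exp (-q)) T)) t|} := ⟨_, rfl⟩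
  obtain ⟨S6, hS6⟩ : ∃ S6 : Set ℝ, S6 = {t | e1 * q ≤ |fld l (PI T q (Real.log (4 * q))) t|} := ⟨_, rfl⟩
  obtain ⟨S7, hS7⟩ : ∃ S7 : Set ℝ, S7 = {t | ∃ b < 4 * r, 1 ≤ b ∧ e1 * q ≤
      |((NZ (t + 2 * Real.pi * b / Real.log T) : ℝ) - NZ t) - b -
        (fld l (Pr (XK (1 / (κ * q)) T)) (t + 2 * Real.pi * b / Real.log T) -
        fld l (Pr (XK (1 / (κ * q)) T)) t)|} := ⟨_, rfl⟩
  have hsub : {t | ∃ b < 4 * r, 1 ≤ b ∧ 7 * e1 * q ≤
      |YY T b t - fld l (PI T (((K : ℝ) - 1) * q / K) (q / K)) (t + 2 * Real.pi * b / Real.log T)|} ⊆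
      (S2 ∪ S3) ∪ ((S4 ∪ S5) ∪ (S6 ∪ S7)) := by
    rintro t ⟨b, hb4, hb1, hbt⟩
    by_contra hcon
    simp only [Set.mem_union, not_or] at hcon
    obtain ⟨⟨k2, k3⟩, ⟨⟨k4, k5⟩, ⟨k6, k7⟩⟩⟩ := hcon
    rw [hS2, Set.mem_ofPred_eq] at k2
    rw [hS3, Set.mem_ofPred_eq] at k3
    rw [hS4, Set.mem_ofPred_eq] at k4
    rw [hS5, Set.mem_ofPred_eq] at k5
    rw [hS6, Set.mem_ofPred_eq] at k6
    rw [hS7, Set.mem_ofPred_eq] at k7
    push Not at k2 k3 k4 k5 k6 k7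
    have g2 := abs_lt.1 (k2 b hb4)
    have g3 := abs_lt.1 (k3 b hb4)
    have g4 := abs_lt.1 (k4 b hb4)
    have g40 := abs_lt.1 (k4 0 (by omega))
    have g5 := abs_lt.1 (k5 b hb4)
    have g6 := abs_lt.1 k6
    have g7 := abs_lt.1 (k7 b hb4 hb1)
    obtain ⟨s, hs⟩ : ∃ s : ℝ, s = t + 2 * Real.pi * b / Real.log T := ⟨_, rfl⟩
    rw [← hs] at g2 g3 g4 g5 g7 hbt
    have e0 : YY T b t = ((NZ s : ℝ) - NZ t) - b := by
      unfold YY
      rw [hs]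
    have e00 : t + 2 * Real.pi * ((0 : ℕ) : ℝ) / Real.log T = t := by simp
    rw [e00] at g40
    rw [fld_split hT1 hκq hlk h4q s, fld_split hT1 hκq hlk h4q t, fld_three hT1 hq0.le hK3 r4 s] at g7
    rw [e0] at hbt
    have : |(NZ s : ℝ) - NZ t - b - fld l (PI T (((K : ℝ) - 1) * q / K) (q / K)) s| < 7 * e1 * q := by
      rw [abs_lt]
      constructor <;> linarith [g2.1, g2.2, g3.1, g3.2, g4.1, g4.2, g40.1, g40.2, g5.1, g5.2, g6.1, g6.2, g7.1, g7.2]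
    linarith
  refine (measureReal_mono hsub (measure_ne_top _ _)).trans ?_
  have v1 := measureReal_union_le (μ := PT T) (S2 ∪ S3) ((S4 ∪ S5) ∪ (S6 ∪ S7))
  have v2 := measureReal_union_le (μ := PT T) S2 S3
  have v3 := measureReal_union_le (μ := PT T) (S4 ∪ S5) (S6 ∪ S7)
  have v4 := measureReal_union_le (μ := PT T) S4 S5
  have v5 := measureReal_union_le (μ := PT T) S6 S7
  rw [← hS2] at u2
  rw [← hS3] at u3
  rw [← hS4] at u4
  rw [← hS5] at u5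
  rw [← hS6] at u6
  rw [← hS7] at t1
  linarith

end

end Pool.Agent.U403.Thick
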