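import Pool.Agent.U403.Thick.LowN
import Pool.Agent.U403.Thick.Up2

/-! # Thick points: the number of thick windows, for almost all heights -/

set_option autoImplicit false

open Filter Topology MeasureTheory Set
open Pool.Agent.Y743.CL
open Pool.Agent.R320.JL
open SP (RHs)
open SG (NZ)
open Pool.Agent.U403.Max
open Pool.Agent.U403.Ldp

namespace Pool.Agent.U403.Thick

noncomputable section

lemma choose_e1 {α ε : ℝ} (hα : 0 < α) (hε : 0 < ε) : ∃ e : ℝ, 0 < e ∧ e ≤ α / 14 ∧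
    Real.pi ^ 2 * α ^ 2 - ε / 4 ≤ Real.pi ^ 2 * (α - 7 * e) ^ 2 := by
  have hc : Continuous fun e : ℝ => Real.pi ^ 2 * (α - 7 * e) ^ 2 := by fun_prop
  have h0 := hc.tendsto 0
  have h1 : ∀ᶠ e : ℝ in 𝓝 0, Real.pi ^ 2 * α ^ 2 - ε / 4 < Real.pi ^ 2 * (α - 7 * e) ^ 2 := by
    apply h0.eventually (lt_mem_nhds _)
    simp only [mul_zero, sub_zero]
    linarith
  obtain ⟨ρ, hρ, h2⟩ := Metric.eventually_nhds_iff.1 h1
  refine ⟨min (ρ / 2) (α / 14), lt_min (by positivity) (by positivity), min_le_right _ _, ?_⟩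
  apply le_of_lt
  apply h2
  rw [Real.dist_eq, sub_zero, abs_of_pos (lt_min (by positivity) (by positivity))]
  exact lt_of_le_of_lt (min_le_left _ _) (by linarith)

lemma choose_e2 {α ε : ℝ} (hα : 0 < α) (hα1 : α < 1 / Real.pi) (hε : 0 < ε) : ∃ e : ℝ, 0 < e ∧ e ≤ 1 / 10 ∧
    Real.pi * (α + 7 * e) + 4 * e ≤ 1 - e ∧
    (Real.pi * (α + 7 * e) + 4 * e) ^ 2 + 2 * e ≤ Real.pi ^ 2 * α ^ 2 + ε / 2 := by
  have hpi := Real.pi_pos
  have hc : Continuous fun e : ℝ => (Real.pi * (α + 7 * e) + 4 * e) ^ 2 + 2 * e := by fun_prop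
  have hc2 : Continuous fun e : ℝ => Real.pi * (α + 7 * e) + 4 * e + e := by fun_prop
  have h0 := hc.tendsto 0
  have h02 := hc2.tendsto 0
  have h1 : ∀ᶠ e : ℝ in 𝓝 0, (Real.pi * (α + 7 * e) + 4 * e) ^ 2 + 2 * e < Real.pi ^ 2 * α ^ 2 + ε / 2 := by
    apply h0.eventually (gt_mem_nhds _)
    simp only [mul_zero, add_zero]
    have : (Real.pi * α) ^ 2 = Real.pi ^ 2 * α ^ 2 := by ring
    linarith
  have h12 : ∀ᶠ e : ℝ in 𝓝 0, Real.pi * (α + 7 * e) + 4 * e + e < 1 := by
    apply h02.eventually (gt_mem_nhds _)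
    simp only [mul_zero, add_zero]
    rw [lt_div_iff₀ hpi] at hα1
    linarith
  obtain ⟨ρ, hρ, h2⟩ := Metric.eventually_nhds_iff.1 (h1.and h12)
  have h3 : 0 < min (ρ / 2) (1 / 10) := lt_min (by positivity) (by norm_num)
  have h4 := h2 (y := min (ρ / 2) (1 / 10)) (by
    rw [Real.dist_eq, sub_zero, abs_of_pos h3]
    exact lt_of_le_of_lt (min_le_left _ _) (by linarith))
  exact ⟨min (ρ / 2) (1 / 10), h3, min_le_right _ _, by linarith [h4.2], h4.1.le⟩

open Classical in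
/-- **the number of thick windows, upper bound** -/
theorem thickUp (hRH : RHs) (α ε : ℝ) (hα : 0 < α) (hε : 0 < ε) (η : ℝ) (hη : 0 < η) :
    ∀ᶠ r : ℕ in atTop, ∀ᶠ T : ℝ in atTop,
      (PT T).real {t | Real.exp ((1 - Real.pi ^ 2 * α ^ 2 + ε) * Real.log r) <
        (((Finset.range (4 * r)).filter fun b : ℕ => 1 ≤ b ∧ α * Real.log r ≤ |YY T b t|).card : ℝ)} ≤ η := by
  obtain ⟨e, he0, heα, he⟩ := choose_e1 hα hε
  obtain ⟨κ, hκ, hdev⟩ := devW hRH e he0
  obtain ⟨K, hKd⟩ : ∃ K : ℕ, K = ⌈2 / e ^ 2⌉₊ + 3 := ⟨_, rfl⟩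
  have hK3 : 3 ≤ K := by omega
  have hKe : 2 / e ^ 2 ≤ K := by
    rw [hKd]
    push_cast
    linarith [Nat.le_ceil (2 / e ^ 2)]
  have hx0 : 0 < α - 7 * e := by linarith
  filter_upwards [hdev K hK3 hKe (η / 2) (by positivity), upN κ hκ K hK3 (α - 7 * e) (ε / 4) hx0 (by positivity),
    logr_top.eventually_ge_atTop (2 * (8 / η) / ε), eventually_ge_atTop 1] with r h1 h2 h3 hr1
  have hr0 : (0 : ℝ) < r := by exact_mod_cast hr1
  filter_upwards [h1, h2, eventually_ge_atTop 1] with T h1 h2 hT1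
  have hT0 : 0 < T := by linarith
  have := PT_univ hT0
  obtain ⟨q, hq⟩ : ∃ q : ℝ, q = Real.log r := ⟨_, rfl⟩
  have hrq : (r : ℝ) = Real.exp q := by rw [hq, Real.exp_log hr0]
  have hq0 : 0 ≤ q := by rw [hq]; exact Real.log_nonneg (by exact_mod_cast hr1)
  rw [← hq] at h1 h2 h3 ⊢
  rw [div_le_iff₀ hε] at h3
  obtain ⟨W, hW⟩ : ∃ W : ℕ → ℝ → ℝ, W = fun (b : ℕ) t => WW κ K r T (t + 2 * Real.pi * (b : ℝ) / Real.log T) := ⟨_, rfl⟩
  have hWe : ∀ (b : ℕ) t, WW κ K r T (t + 2 * Real.pi * b / Real.log T) = W b t := fun b t => by rw [hW]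
  have hWm : ∀ b, Measurable (W b) := fun b => by
    rw [hW]
    unfold WW
    exact ((fld_cont _ _).comp (by fun_prop : Continuous fun t : ℝ => t + 2 * Real.pi * b / Real.log T)).measurable
  have h2' : ∀ b : ℕ, (PT T).real {t | (α - 7 * e) * q ≤ |W b t|} ≤
      Real.exp (-((Real.pi ^ 2 * (α - 7 * e) ^ 2 - ε / 4) * q)) := fun b => by
    have := h2 (2 * Real.pi * b / Real.log T)
    simp only [hWe] at this
    exact this
  simp only [hWe] at h1
  obtain ⟨S, hS⟩ : ∃ S : ℕ → Set ℝ, S = fun b => {t | (α - 7 * e) * q ≤ |W b t|} := ⟨_, rfl⟩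
  have hSm : ∀ b, MeasurableSet (S b) := fun b => by
    rw [hS]; exact measurableSet_le measurable_const (hWm b).abs
  obtain ⟨f, hf⟩ : ∃ f : ℝ → ℝ, f = fun t => ∑ b ∈ Finset.range (4 * r), (S b).indicator (fun _ => (1 : ℝ)) t := ⟨_, rfl⟩
  have hfi : ∀ b, Integrable ((S b).indicator fun _ => (1 : ℝ)) (PT T) := fun b => (integrable_const _).indicator (hSm b)
  have hfI : Integrable f (PT T) := by rw [hf]; exact integrable_finsetSum _ fun b _ => hfi b
  have hf0 : ∀ t, 0 ≤ f t := fun t => by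
    rw [hf]
    exact Finset.sum_nonneg fun b _ => Set.indicator_nonneg (fun _ _ => zero_le_one) _
  have hint : ∫ t, f t ∂(PT T) ≤ 4 * r * Real.exp (-((Real.pi ^ 2 * (α - 7 * e) ^ 2 - ε / 4) * q)) := by
    rw [hf]
    simp only
    rw [integral_finsetSum _ fun b _ => hfi b]
    have : ∀ b ∈ Finset.range (4 * r), ∫ t, (S b).indicator (fun _ => (1 : ℝ)) t ∂(PT T) ≤
        Real.exp (-((Real.pi ^ 2 * (α - 7 * e) ^ 2 - ε / 4) * q)) := by
      intro b _
      rw [integral_indicator (hSm b), setIntegral_const, smul_eq_mul, mul_one, hS]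
      exact h2' b
    refine (Finset.sum_le_sum this).trans (le_of_eq ?_)
    rw [Finset.sum_const, Finset.card_range, nsmul_eq_mul]
    push_cast
    ring
  obtain ⟨D, hD⟩ : ∃ D : ℝ, D = Real.exp ((1 - Real.pi ^ 2 * α ^ 2 + ε) * q) := ⟨_, rfl⟩
  have hD0 : 0 < D := by rw [hD]; exact Real.exp_pos _
  have hmk := mul_meas_ge_le_integral_of_nonneg (ae_of_all _ hf0) hfI D
  have hsmall : (PT T).real {t | D ≤ f t} ≤ η / 2 := by
    have h5 : 4 * r * Real.exp (-((Real.pi ^ 2 * (α - 7 * e) ^ 2 - ε / 4) * q)) ≤ D * (η / 2) := by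
      have h6 : Real.exp (-((Real.pi ^ 2 * (α - 7 * e) ^ 2 - ε / 4) * q)) ≤
          Real.exp (-((Real.pi ^ 2 * α ^ 2 - ε / 2) * q)) := by
        apply Real.exp_le_exp.2
        nlinarith
      have h7 : 8 / η ≤ Real.exp (ε / 2 * q) := by
        have := Real.add_one_le_exp (ε / 2 * q)
        linarith
      rw [div_le_iff₀ hη] at h7
      have h8 : (r : ℝ) * Real.exp (-((Real.pi ^ 2 * α ^ 2 - ε / 2) * q)) * Real.exp (ε / 2 * q) = D := by
        rw [hrq, hD, ← Real.exp_add, ← Real.exp_add]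
        congr 1
        ring
      rw [← h8]
      have h9 : 0 ≤ (r : ℝ) * Real.exp (-((Real.pi ^ 2 * α ^ 2 - ε / 2) * q)) := by positivity
      calc 4 * r * Real.exp (-((Real.pi ^ 2 * (α - 7 * e) ^ 2 - ε / 4) * q)) ≤
          4 * r * Real.exp (-((Real.pi ^ 2 * α ^ 2 - ε / 2) * q)) := by gcongr
        _ = (r * Real.exp (-((Real.pi ^ 2 * α ^ 2 - ε / 2) * q))) * 4 := by ring
        _ ≤ (r * Real.exp (-((Real.pi ^ 2 * α ^ 2 - ε / 2) * q))) * (Real.exp (ε / 2 * q) * η / 2) := by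
            apply mul_le_mul_of_nonneg_left _ h9
            linarith
        _ = _ := by ring
    have h6 : D * (PT T).real {t | D ≤ f t} ≤ D * (η / 2) := hmk.trans (hint.trans h5)
    exact le_of_mul_le_mul_left h6 hD0
  have hsub : {t | D < (((Finset.range (4 * r)).filter fun b : ℕ => 1 ≤ b ∧ α * q ≤ |YY T b t|).card : ℝ)} ⊆
      {t | ∃ b < 4 * r, 1 ≤ b ∧ 7 * e * q ≤ |YY T b t - W b t|} ∪ {t | D ≤ f t} := by
    intro t ht
    by_cases hb : ∃ b < 4 * r, 1 ≤ b ∧ 7 * e * q ≤ |YY T b t - W b t|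
    · exact Or.inl hb
    · right
      push Not at hb
      rw [Set.mem_ofPred_eq] at ht ⊢
      refine ht.le.trans ?_
      rw [hf]
      simp only
      rw [Finset.card_filter]
      push_cast
      refine Finset.sum_le_sum fun b hbr => ?_
      split_ifs with hc
      · rw [Set.indicator_of_mem]
        rw [hS]
        show (α - 7 * e) * q ≤ |W b t|
        have h5 := hb b (Finset.mem_range.1 hbr) hc.1
        have h6 : |YY T b t| ≤ |YY T b t - W b t| + |W b t| := by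
          have : YY T b t = (YY T b t - W b t) + W b t := by ring
          calc |YY T b t| = |(YY T b t - W b t) + W b t| := by rw [← this]
            _ ≤ _ := abs_add_le _ _
        have h7 := hc.2
        linarith
      · exact Set.indicator_nonneg (fun _ _ => zero_le_one) _
  rw [← hD]
  refine (measureReal_mono hsub (measure_ne_top _ _)).trans ((measureReal_union_le _ _).trans ?_)
  linarith

open Classical in
/-- **the number of thick windows, lower bound** -/
theorem thickLow (hRH : RHs) (α ε : ℝ) (hα : 0 < α) (hα1 : α < 1 / Real.pi) (hε : 0 < ε) (η : ℝ) (hη : 0 < η) :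
    ∀ᶠ r : ℕ in atTop, ∀ᶠ T : ℝ in atTop, ∀ σ : ℝ, σ = 1 ∨ σ = -1 →
      (PT T).real {t | (((Finset.range r).filter fun b : ℕ => 1 ≤ b ∧ α * Real.log r ≤ σ * YY T b t).card : ℝ) <
        Real.exp ((1 - Real.pi ^ 2 * α ^ 2 - ε) * Real.log r)} ≤ η := by
  have hpi := Real.pi_pos
  have hpi3 := Real.pi_gt_three
  have hα2 : 0 < 1 - Real.pi ^ 2 * α ^ 2 := by
    rw [lt_div_iff₀ hpi] at hα1
    have : Real.pi ^ 2 * α ^ 2 = (α * Real.pi) ^ 2 := by ring
    rw [this]
    nlinarith [mul_pos hα hpi]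
  obtain ⟨ε', hε'⟩ : ∃ ε' : ℝ, ε' = min ε (1 - Real.pi ^ 2 * α ^ 2) := ⟨_, rfl⟩
  have hε'0 : 0 < ε' := by rw [hε']; exact lt_min hε hα2
  have hε'1 : ε' ≤ ε := by rw [hε']; exact min_le_left _ _
  have hε'2 : ε' ≤ 1 - Real.pi ^ 2 * α ^ 2 := by rw [hε']; exact min_le_right _ _
  obtain ⟨e, he0, he1, heβ, he2⟩ := choose_e2 hα hα1 hε'0
  obtain ⟨β, hβ⟩ : ∃ β : ℝ, β = Real.pi * (α + 7 * e) + 4 * e := ⟨_, rfl⟩
  rw [← hβ] at heβ he2
  have hβ0 : 0 < β := by rw [hβ]; positivity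
  have heβ' : e ≤ β := by rw [hβ]; nlinarith [mul_pos hpi hα]
  obtain ⟨κ, hκ, hdev⟩ := devW hRH e he0
  obtain ⟨K, hKd⟩ : ∃ K : ℕ, K = ⌈2 / e ^ 2⌉₊ + 3 := ⟨_, rfl⟩
  have hK3 : 3 ≤ K := by omega
  have hKe : 2 / e ^ 2 ≤ K := by
    rw [hKd]
    push_cast
    linarith [Nat.le_ceil (2 / e ^ 2)]
  have hKe1 : 2 / e ≤ K := by
    refine le_trans ?_ hKe
    apply div_le_div_of_nonneg_left (by norm_num) (by positivity)
    nlinarith
  filter_upwards [hdev K hK3 hKe (η / 2) (by positivity), lowN β hβ0 e he0 he1 heβ' heβ κ hκ K hK3 hKe1 (η / 2) (by positivity),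
    logr_top.eventually_ge_atTop (4 / (1 - Real.pi ^ 2 * α ^ 2)), logr_top.eventually_ge_atTop (2 * 2 / ε'),
    eventually_ge_atTop 1] with r h1 h2 h3 h4 hr1
  filter_upwards [h1, h2, eventually_ge_atTop 1] with T h1 h2 hT1 σ hσ
  have h2 := h2 σ hσ
  have hT0 : 0 < T := by linarith
  have := PT_univ hT0
  have hσa : |σ| = 1 := by rcases hσ with h | h <;> rw [h] <;> norm_num
  obtain ⟨q, hq⟩ : ∃ q : ℝ, q = Real.log r := ⟨_, rfl⟩
  have hq0 : 0 ≤ q := by rw [hq]; exact Real.log_nonneg (by exact_mod_cast hr1)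
  rw [← hq] at h1 h2 h3 h4 ⊢
  rw [div_le_iff₀ hα2] at h3
  rw [div_le_iff₀ hε'0] at h4
  obtain ⟨W, hW⟩ : ∃ W : ℕ → ℝ → ℝ, W = fun (b : ℕ) t => WW κ K r T (t + 2 * Real.pi * (b : ℝ) / Real.log T) := ⟨_, rfl⟩
  have hWe : ∀ (b : ℕ) t, WW κ K r T (t + 2 * Real.pi * b / Real.log T) = W b t := fun b t => by rw [hW]
  have hWe2 : ∀ (b : ℕ) t, fld (Real.log T / (κ * q)) (PI T (((K : ℝ) - 1) * q / K) (q / K))
      (t + 2 * Real.pi * b / Real.log T) = W b t := fun b t => by rw [hW, hq]; rfl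
  have hWm : ∀ b, Measurable (W b) := fun b => by
    rw [hW]
    unfold WW
    exact ((fld_cont _ _).comp (by fun_prop : Continuous fun t : ℝ => t + 2 * Real.pi * b / Real.log T)).measurable
  simp only [hWe] at h1
  simp only [hWe2] at h2
  obtain ⟨S, hS⟩ : ∃ S : Set ℝ, S = {t | Real.exp ((1 - β ^ 2 - 2 * e) * q) ≤
      (((Finset.range r).filter fun b : ℕ => (β - 4 * e) / Real.pi * q < σ * W b t).card : ℝ)} := ⟨_, rfl⟩
  have hSm : MeasurableSet S := by
    rw [hS]
    apply measurableSet_le measurable_const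
    simp only [Finset.card_filter]
    push_cast
    refine Finset.measurable_fun_sum _ fun b _ => ?_
    exact Measurable.ite (measurableSet_lt measurable_const ((hWm b).const_mul σ)) measurable_const measurable_const
  have h2' : 1 - η / 2 ≤ (PT T).real S := by
    rw [hS]
    refine h2.trans (le_of_eq ?_)
    congr 1
  have h3' := compl_small hT0 hSm h2'
  have hsub : {t | (((Finset.range r).filter fun b : ℕ => 1 ≤ b ∧ α * q ≤ σ * YY T b t).card : ℝ) <
        Real.exp ((1 - Real.pi ^ 2 * α ^ 2 - ε) * q)} ⊆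
      {t | ∃ b < 4 * r, 1 ≤ b ∧ 7 * e * q ≤ |YY T b t - W b t|} ∪ Sᶜ := by
    intro t ht
    by_cases hb : ∃ b < 4 * r, 1 ≤ b ∧ 7 * e * q ≤ |YY T b t - W b t|
    · exact Or.inl hb
    · right
      push Not at hb
      rw [Set.mem_compl_iff, hS, Set.mem_ofPred_eq, not_le]
      rw [Set.mem_ofPred_eq] at ht
      have hss : (Finset.range r).filter (fun b : ℕ => (β - 4 * e) / Real.pi * q < σ * W b t) ⊆
          insert 0 ((Finset.range r).filter fun b : ℕ => 1 ≤ b ∧ α * q ≤ σ * YY T b t) := by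
        intro b hb1
        rw [Finset.mem_filter] at hb1
        rw [Finset.mem_insert, Finset.mem_filter]
        rcases Nat.eq_zero_or_pos b with h | h
        · exact Or.inl h
        · right
          refine ⟨hb1.1, h, ?_⟩
          have h5 := hb b (by have := Finset.mem_range.1 hb1.1; omega) h
          have h6 : |σ * YY T b t - σ * W b t| < 7 * e * q := by
            rw [← mul_sub, abs_mul, hσa, one_mul]
            exact h5
          have h7 := (abs_lt.1 h6).1
          have h8 : (β - 4 * e) / Real.pi * q = (α + 7 * e) * q := by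
            rw [hβ]; field_simp; ring
          have h9 := hb1.2
          rw [h8] at h9
          linarith
      have hc : (((Finset.range r).filter fun b : ℕ => (β - 4 * e) / Real.pi * q < σ * W b t).card : ℝ) ≤
          (((Finset.range r).filter fun b : ℕ => 1 ≤ b ∧ α * q ≤ σ * YY T b t).card : ℝ) + 1 := by
        exact_mod_cast (Finset.card_le_card hss).trans (Finset.card_insert_le _ _)
      refine lt_of_le_of_lt hc ?_
      have g1 : Real.exp ((1 - Real.pi ^ 2 * α ^ 2 - ε) * q) + 1 ≤ Real.exp ((1 - β ^ 2 - 2 * e) * q) := by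
        obtain ⟨x, hx⟩ : ∃ x : ℝ, x = (1 - Real.pi ^ 2 * α ^ 2 - ε' / 2) * q := ⟨_, rfl⟩
        have g2 : Real.exp ((1 - Real.pi ^ 2 * α ^ 2 - ε) * q) ≤ Real.exp x * Real.exp (-(ε' / 2 * q)) := by
          rw [← Real.exp_add]
          apply Real.exp_le_exp.2
          rw [hx]
          nlinarith
        have g3 : Real.exp x ≤ Real.exp ((1 - β ^ 2 - 2 * e) * q) := by
          apply Real.exp_le_exp.2
          rw [hx]
          apply mul_le_mul_of_nonneg_right _ hq0
          linarith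
        have g4 : Real.exp (-(ε' / 2 * q)) ≤ 1 / 2 := by
          rw [Real.exp_neg, ← one_div]
          apply one_div_le_one_div_of_le (by norm_num)
          have := Real.add_one_le_exp (ε' / 2 * q)
          linarith
        have g5 : 2 ≤ Real.exp x := by
          have h5 : 2 ≤ x := by
            rw [hx]
            nlinarith
          have := Real.add_one_le_exp x
          linarith
        have g6 := mul_le_mul_of_nonneg_left g4 (Real.exp_pos x).le
        linarith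
      linarith
  refine (measureReal_mono hsub (measure_ne_top _ _)).trans ((measureReal_union_le _ _).trans ?_)
  linarith

end

end Pool.Agent.U403.Thick
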