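import Pool.Agent.U403.Thick.Thk

/-! # Thick points: all levels at once -/

set_option autoImplicit false

open Filter Topology MeasureTheory Set
open Pool.Agent.Y743.CL
open Pool.Agent.R320.JL
open SP (RHs)
open SG (NZ)
open Pool.Agent.U403.Max
open Pool.Agent.U403.Ldp

namespace Pool.Agent.U403.Thick

noncomputable section

/-- a family of sets of small proportion -/
def Sml (B : ℕ → ℝ → Set ℝ) : Prop :=
  ∀ η : ℝ, 0 < η → ∀ᶠ r : ℕ in atTop, ∀ᶠ T : ℝ in atTop, (PT T).real (B r T) ≤ η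

lemma Sml_mono {B C : ℕ → ℝ → Set ℝ} (hC : Sml C) (h : ∀ᶠ r : ℕ in atTop, ∀ᶠ T : ℝ in atTop, B r T ⊆ C r T) : Sml B := by
  intro η hη
  filter_upwards [hC η hη, h] with r h1 h2
  filter_upwards [h1, h2, eventually_ge_atTop 1] with T h1 h2 hT1
  have := PT_univ (T := T) (by linarith)
  exact (measureReal_mono h2).trans h1

lemma Sml_union {B C : ℕ → ℝ → Set ℝ} (hB : Sml B) (hC : Sml C) : Sml fun r T => B r T ∪ C r T := by
  intro η hη
  filter_upwards [hB (η / 2) (by positivity), hC (η / 2) (by positivity)] with r h1 h2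
  filter_upwards [h1, h2] with T h1 h2
  exact (measureReal_union_le _ _).trans (by linarith)

lemma Sml_fin (M : ℕ) (B : ℕ → ℕ → ℝ → Set ℝ) (h : ∀ j < M, Sml (B j)) :
    Sml fun r T => {t | ∃ j < M, t ∈ B j r T} := by
  induction M with
  | zero =>
    intro η hη
    filter_upwards with r
    filter_upwards with T
    simp only [not_lt_zero, false_and, exists_false, ofPred_false, measureReal_empty]
    exact hη.le
  | succ M ih =>
    refine Sml_mono (Sml_union (ih fun j hj => h j (by omega)) (h M (by omega))) ?_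
    filter_upwards with r
    filter_upwards with T
    rintro t ⟨j, hj, ht⟩
    rcases Nat.lt_succ_iff_lt_or_eq.1 hj with hj | hj
    · exact Or.inl ⟨j, hj, ht⟩
    · exact Or.inr (hj ▸ ht)

open Classical in
/-- the number of the windows with deviation at least `α log r` in the direction `σ` -/
def cnt (σ α : ℝ) (r : ℕ) (T t : ℝ) : ℕ := ((Finset.Icc 1 r).filter fun b : ℕ => α * Real.log r ≤ σ * YY T b t).card

lemma cnt_anti {σ α β : ℝ} {r : ℕ} (hr : 1 ≤ r) (h : α ≤ β) (T t : ℝ) : cnt σ β r T t ≤ cnt σ α r T t := by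
  unfold cnt
  apply Finset.card_le_card
  intro b hb
  rw [Finset.mem_filter] at hb ⊢
  refine ⟨hb.1, le_trans ?_ hb.2⟩
  exact mul_le_mul_of_nonneg_right h (Real.log_nonneg (by exact_mod_cast hr))

lemma cnt_le (σ α : ℝ) (r : ℕ) (T t : ℝ) : cnt σ α r T t ≤ r := by
  unfold cnt
  refine (Finset.card_filter_le _ _).trans (le_of_eq ?_)
  rw [Nat.card_Icc]
  omega

/-- the event -/
def Good (ε : ℝ) (r : ℕ) (T t : ℝ) : Prop :=
  (∀ σ : ℝ, σ = 1 ∨ σ = -1 → ∀ α : ℝ, 0 ≤ α → α ≤ 1 / Real.pi - ε →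
    Real.exp ((1 - Real.pi ^ 2 * α ^ 2 - ε) * Real.log r) ≤ cnt σ α r T t ∧
    (cnt σ α r T t : ℝ) ≤ Real.exp ((1 - Real.pi ^ 2 * α ^ 2 + ε) * Real.log r)) ∧
  ∀ b : ℕ, 1 ≤ b → b ≤ r → |YY T b t| ≤ (1 / Real.pi + ε) * Real.log r

/-- bad sets -/
def BadLow (σ α ε : ℝ) (r : ℕ) (T : ℝ) : Set ℝ :=
  {t | (cnt σ α r T t : ℝ) < Real.exp ((1 - Real.pi ^ 2 * α ^ 2 - ε) * Real.log r)}

def BadUp (σ α ε : ℝ) (r : ℕ) (T : ℝ) : Set ℝ :=
  {t | Real.exp ((1 - Real.pi ^ 2 * α ^ 2 + ε) * Real.log r) < (cnt σ α r T t : ℝ)}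

lemma BadLow_sml (hRH : RHs) (σ : ℝ) (hσ : σ = 1 ∨ σ = -1) (α ε : ℝ) (hα : 0 < α) (hα1 : α < 1 / Real.pi)
    (hε : 0 < ε) : Sml (BadLow σ α ε) := by
  classical
  intro η hη
  filter_upwards [thickLow hRH α ε hα hα1 hε η hη] with r h
  filter_upwards [h, eventually_ge_atTop 1] with T h hT1
  have := PT_univ (T := T) (by linarith)
  refine (measureReal_mono ?_).trans (h σ hσ)
  intro t ht
  unfold BadLow cnt at ht
  rw [Set.mem_ofPred_eq] at ht ⊢
  refine lt_of_le_of_lt ?_ ht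
  norm_cast
  apply Finset.card_le_card
  intro b hb
  rw [Finset.mem_filter, Finset.mem_range] at hb
  rw [Finset.mem_filter, Finset.mem_Icc]
  exact ⟨⟨hb.2.1, hb.1.le⟩, hb.2.2⟩

lemma BadUp_sml (hRH : RHs) (σ : ℝ) (hσ : σ = 1 ∨ σ = -1) (α ε : ℝ) (hα : 0 < α)
    (hε : 0 < ε) : Sml (BadUp σ α ε) := by
  classical
  intro η hη
  have hσa : |σ| = 1 := by rcases hσ with h | h <;> rw [h] <;> norm_num
  filter_upwards [thickUp hRH α ε hα hε η hη, eventually_ge_atTop 1] with r h hr1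
  filter_upwards [h, eventually_ge_atTop 1] with T h hT1
  have := PT_univ (T := T) (by linarith)
  refine (measureReal_mono ?_).trans h
  intro t ht
  unfold BadUp cnt at ht
  rw [Set.mem_ofPred_eq] at ht ⊢
  refine lt_of_lt_of_le ht ?_
  norm_cast
  apply Finset.card_le_card
  intro b hb
  rw [Finset.mem_filter, Finset.mem_Icc] at hb
  rw [Finset.mem_filter, Finset.mem_range]
  refine ⟨by omega, hb.1.1, hb.2.trans ?_⟩
  have := le_abs_self (σ * YY T b t)
  rw [abs_mul, hσa, one_mul] at this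
  exact this

/-- no window is thicker than `1 / π` -/
def BadMax (ε : ℝ) (r : ℕ) (T : ℝ) : Set ℝ := {t | ∃ b : ℕ, 1 ≤ b ∧ b ≤ r ∧ (1 / Real.pi + ε) * Real.log r < |YY T b t|}

lemma BadMax_sml (hRH : RHs) (ε : ℝ) (hε : 0 < ε) : Sml (BadMax ε) := by
  classical
  have hpi := Real.pi_pos
  intro η hη
  filter_upwards [thickUp hRH (1 / Real.pi + ε) (Real.pi * ε) (by positivity) (by positivity) η hη,
    eventually_ge_atTop 2] with r h hr1
  filter_upwards [h, eventually_ge_atTop 1] with T h hT1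
  have := PT_univ (T := T) (by linarith)
  refine (measureReal_mono ?_).trans h
  rintro t ⟨b, hb1, hb2, hb3⟩
  rw [Set.mem_ofPred_eq]
  have hq : 0 < Real.log r := Real.log_pos (by exact_mod_cast hr1)
  have h1 : Real.exp ((1 - Real.pi ^ 2 * (1 / Real.pi + ε) ^ 2 + Real.pi * ε) * Real.log r) < 1 := by
    rw [Real.exp_lt_one_iff]
    apply mul_neg_of_neg_of_pos _ hq
    have : Real.pi ^ 2 * (1 / Real.pi + ε) ^ 2 = 1 + 2 * Real.pi * ε + Real.pi ^ 2 * ε ^ 2 := by
      field_simp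
      ring
    rw [this]
    have := mul_pos hpi hε
    nlinarith [sq_nonneg (Real.pi * ε)]
  refine lt_of_lt_of_le h1 ?_
  norm_cast
  rw [Nat.one_le_iff_ne_zero, Ne, Finset.card_eq_zero, ← Ne, ← Finset.nonempty_iff_ne_empty]
  refine ⟨b, ?_⟩
  rw [Finset.mem_filter, Finset.mem_range]
  exact ⟨by omega, hb1, hb3.le⟩

/-- **all the levels at once** -/
theorem spectrum (hRH : RHs) (ε : ℝ) (hε : 0 < ε) : Sml fun r T => {t | ¬ Good ε r T t} := by
  have hpi := Real.pi_pos
  have hpi3 := Real.pi_gt_three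
  have hpi4 := Real.pi_lt_four
  obtain ⟨h, hh⟩ : ∃ h : ℝ, h = min ε 1 / 50 := ⟨_, rfl⟩
  have hm1 : min ε 1 ≤ ε := min_le_left _ _
  have hm2 : min ε 1 ≤ 1 := min_le_right _ _
  have hm0 : 0 < min ε 1 := lt_min hε one_pos
  have hh0 : 0 < h := by rw [hh]; positivity
  have hh1 : 50 * h ≤ ε := by rw [hh]; linarith
  have hh2 : h ≤ 1 / 50 := by rw [hh]; linarith
  obtain ⟨M, hM⟩ : ∃ M : ℕ, M = ⌈1 / h⌉₊ + 2 := ⟨_, rfl⟩
  have hMh : 1 / h ≤ M := by rw [hM]; push_cast; linarith [Nat.le_ceil (1 / h)]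
  have hlow : ∀ σ : ℝ, σ = 1 ∨ σ = -1 → Sml fun r T => {t | ∃ j < M, t ∈
      (fun (j : ℕ) (r : ℕ) (T : ℝ) => if ((j : ℝ) + 1) * h < 1 / Real.pi then BadLow σ (((j : ℝ) + 1) * h) (ε / 2) r T
        else ∅) j r T} := by
    intro σ hσ
    apply Sml_fin M
    intro j _
    by_cases hj : ((j : ℝ) + 1) * h < 1 / Real.pi
    · simp only [if_pos hj]
      exact BadLow_sml hRH σ hσ _ _ (by positivity) hj (by positivity)
    · simp only [if_neg hj]
      intro η hη
      filter_upwards with r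
      filter_upwards with T
      rw [measureReal_empty]
      exact hη.le
  have hup : ∀ σ : ℝ, σ = 1 ∨ σ = -1 → Sml fun r T => {t | ∃ j < M, t ∈
      (fun (j : ℕ) (r : ℕ) (T : ℝ) => BadUp σ (((j : ℝ) + 1) * h) (ε / 2) r T) j r T} := by
    intro σ hσ
    apply Sml_fin M
    intro j _
    exact BadUp_sml hRH σ hσ _ _ (by positivity) (by positivity)
  have hall := Sml_union (Sml_union (hlow 1 (Or.inl rfl)) (hlow (-1) (Or.inr rfl)))
    (Sml_union (Sml_union (hup 1 (Or.inl rfl)) (hup (-1) (Or.inr rfl))) (BadMax_sml hRH ε hε))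
  refine Sml_mono hall ?_
  filter_upwards [eventually_ge_atTop 1] with r hr1
  filter_upwards with T
  intro t ht
  by_contra hn
  simp only [Set.mem_union, not_or] at hn
  obtain ⟨⟨hl1, hl2⟩, ⟨hu1, hu2⟩, hmx⟩ := hn
  apply ht
  have hq0 : 0 ≤ Real.log r := Real.log_nonneg (by exact_mod_cast hr1)
  refine ⟨fun σ hσ α hα0 hα1 => ?_, fun b hb1 hb2 => ?_⟩
  · have hl : ∀ j < M, ((j : ℝ) + 1) * h < 1 / Real.pi → t ∉ BadLow σ (((j : ℝ) + 1) * h) (ε / 2) r T := by
      intro j hj hj2 hc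
      rcases hσ with h1 | h1
      · exact hl1 ⟨j, hj, by rw [h1] at hc; simp only [if_pos hj2]; exact hc⟩
      · exact hl2 ⟨j, hj, by rw [h1] at hc; simp only [if_pos hj2]; exact hc⟩
    have hu : ∀ j < M, t ∉ BadUp σ (((j : ℝ) + 1) * h) (ε / 2) r T := by
      intro j hj hc
      rcases hσ with h1 | h1
      · exact hu1 ⟨j, hj, by rw [h1] at hc; exact hc⟩
      · exact hu2 ⟨j, hj, by rw [h1] at hc; exact hc⟩
    obtain ⟨j, hj⟩ : ∃ j : ℕ, j = ⌊α / h⌋₊ := ⟨_, rfl⟩
    have hj1 : (j : ℝ) * h ≤ α := by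
      rw [hj, ← le_div_iff₀ hh0]
      exact Nat.floor_le (by positivity)
    have hj2 : α < ((j : ℝ) + 1) * h := by
      rw [hj, ← div_lt_iff₀ hh0]
      exact Nat.lt_floor_add_one _
    have hpi1 : 1 / Real.pi < 1 := by rw [div_lt_one hpi]; linarith
    have hα2 : α < 1 := by linarith
    have hjM : j + 1 < M := by
      have h1 : (j : ℝ) * h < 1 := by linarith
      rw [← lt_div_iff₀ hh0] at h1
      have h2 : (j : ℝ) < (⌈1 / h⌉₊ : ℝ) := lt_of_lt_of_le h1 (Nat.le_ceil _)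
      have h3 : j < ⌈1 / h⌉₊ := by exact_mod_cast h2
      omega
    have hpa : Real.pi * α ≤ 1 := by
      have : α ≤ 1 / Real.pi := by linarith
      rw [le_div_iff₀ hpi] at this
      linarith
    constructor
    · have h1 := hl j (by omega) (by nlinarith)
      unfold BadLow at h1
      rw [Set.mem_ofPred_eq, not_lt] at h1
      refine le_trans ?_ (h1.trans (by exact_mod_cast cnt_anti hr1 hj2.le T t))
      apply Real.exp_le_exp.2
      apply mul_le_mul_of_nonneg_right _ hq0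
      have h2 : (((j : ℝ) + 1) * h) ^ 2 ≤ (α + h) ^ 2 := by
        apply pow_le_pow_left₀ (by positivity)
        nlinarith
      have h3 : Real.pi ^ 2 * (((j : ℝ) + 1) * h) ^ 2 ≤ Real.pi ^ 2 * (α + h) ^ 2 := by gcongr
      have h4 : Real.pi ^ 2 * (α + h) ^ 2 = Real.pi ^ 2 * α ^ 2 + 2 * Real.pi * h * (Real.pi * α) + Real.pi ^ 2 * h ^ 2 := by
        ring
      have h5 : 2 * Real.pi * h * (Real.pi * α) ≤ 8 * h := by
        have : 2 * Real.pi * h * (Real.pi * α) ≤ 2 * Real.pi * h * 1 := by gcongr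
        nlinarith
      have h6 : Real.pi ^ 2 * h ^ 2 ≤ h := by
        have : Real.pi ^ 2 ≤ 16 := by nlinarith
        nlinarith [mul_le_mul this hh2 hh0.le (by norm_num)]
      linarith
    · rcases Nat.eq_zero_or_pos j with hj0 | hj0
      · refine (show (cnt σ α r T t : ℝ) ≤ r by exact_mod_cast cnt_le σ α r T t).trans ?_
        rw [hj0] at hj2
        have h0 : (0 : ℝ) < r := by exact_mod_cast hr1
        calc (r : ℝ) = Real.exp (Real.log r) := (Real.exp_log h0).symm
          _ ≤ _ := by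
              apply Real.exp_le_exp.2
              refine le_trans (le_of_eq (one_mul _).symm) ?_
              apply mul_le_mul_of_nonneg_right _ hq0
              have h2 : Real.pi ^ 2 * α ^ 2 ≤ 16 * α := by
                have h3 : Real.pi ^ 2 * α ^ 2 = Real.pi * (Real.pi * α) * α := by ring
                rw [h3]
                have : Real.pi * (Real.pi * α) ≤ 4 * 1 := by gcongr
                nlinarith
              have h4 : α < h := by simpa using hj2
              linarith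
      · have h1 := hu (j - 1) (by omega)
        have hjc : ((j - 1 : ℕ) : ℝ) + 1 = j := by
          have : j - 1 + 1 = j := by omega
          exact_mod_cast this
        rw [hjc] at h1
        unfold BadUp at h1
        rw [Set.mem_ofPred_eq, not_lt] at h1
        refine le_trans (le_trans (by exact_mod_cast cnt_anti hr1 hj1 T t) h1) ?_
        apply Real.exp_le_exp.2
        apply mul_le_mul_of_nonneg_right _ hq0
        have h2 : (α - h) ^ 2 ≤ ((j : ℝ) * h) ^ 2 := by
          have hj3 : (1 : ℝ) ≤ j := by exact_mod_cast hj0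
          apply pow_le_pow_left₀ _ (by nlinarith)
          nlinarith
        have h3 : Real.pi ^ 2 * (α - h) ^ 2 ≤ Real.pi ^ 2 * ((j : ℝ) * h) ^ 2 := by gcongr
        have h4 : Real.pi ^ 2 * (α - h) ^ 2 = Real.pi ^ 2 * α ^ 2 - 2 * Real.pi * h * (Real.pi * α) + Real.pi ^ 2 * h ^ 2 := by
          ring
        have h5 : 2 * Real.pi * h * (Real.pi * α) ≤ 8 * h := by
          have : 2 * Real.pi * h * (Real.pi * α) ≤ 2 * Real.pi * h * 1 := by gcongr
          nlinarith
        have h6 : 0 ≤ Real.pi ^ 2 * h ^ 2 := by positivity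
        linarith
  · by_contra hc
    rw [not_le] at hc
    exact hmx ⟨b, hb1, hb2, hc⟩

end

end Pool.Agent.U403.Thick
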